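import Mathlib

/-!
The cross ratio of four lines: algebra.
-/

namespace Pool.Agent.R834.Zar

/-- the four lines -/
def F4 (t a b : ℂ) : ℂ := a * b * (a - b) * (a - t * b)

def I4 (t : ℂ) : ℂ := t ^ 2 - t + 1

def J4 (t : ℂ) : ℂ := (t + 1) * (2 * t - 1) * (t - 2)

theorem invariant_relation (t t0 p q r s : ℂ) (ht00 : t0 ≠ 0) (ht0 : t0 ≠ 1) (hdet : p * s - q * r ≠ 0)
    (h1 : F4 t p r = 0) (h2 : F4 t q s = 0) (h3 : F4 t (p + q) (r + s) = 0)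
    (h4 : F4 t (p * t0 + q) (r * t0 + s) = 0) :
    I4 t0 ^ 3 * J4 t ^ 2 = I4 t ^ 3 * J4 t0 ^ 2 := by
  unfold F4 at h1 h2 h3 h4
  unfold I4 J4
  set A0 := p * r * (p - r) * (p - t * r) with hA0
  set A4 := q * s * (q - s) * (q - t * s) with hA4
  set A1 := p ^ 3 * s + 3 * p ^ 2 * q * r - (1 + t) * (2 * p ^ 2 * r * s + 2 * p * q * r ^ 2) +
    t * (3 * p * r ^ 2 * s + q * r ^ 3) with hA1
  set A3 := q ^ 3 * r + 3 * p * q ^ 2 * s - (1 + t) * (2 * p * q * s ^ 2 + 2 * q ^ 2 * r * s) +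
    t * (3 * q * r * s ^ 2 + p * s ^ 3) with hA3
  set A2 := 3 * p * q ^ 2 * r + 3 * p ^ 2 * q * s -
    (1 + t) * (p ^ 2 * s ^ 2 + 4 * p * q * r * s + q ^ 2 * r ^ 2) +
    t * (3 * p * r * s ^ 2 + 3 * q * r ^ 2 * s) with hA2
  have e3 : A1 + A2 + A3 = 0 := by
    have : (p + q) * (r + s) * (p + q - (r + s)) * (p + q - t * (r + s)) =
      A0 + A1 + A2 + A3 + A4 := by
      rw [hA0, hA1, hA2, hA3, hA4]; ring
    rw [this, h1, h2] at h3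
    linear_combination h3
  have e4 : t0 * (A1 * t0 ^ 2 + A2 * t0 + A3) = 0 := by
    have : (p * t0 + q) * (r * t0 + s) * (p * t0 + q - (r * t0 + s)) *
      (p * t0 + q - t * (r * t0 + s)) =
      A0 * t0 ^ 4 + A1 * t0 ^ 3 + A2 * t0 ^ 2 + A3 * t0 + A4 := by
      rw [hA0, hA1, hA2, hA3, hA4]; ring
    rw [this, h1, h2] at h4
    linear_combination h4
  have hI : 12 * A0 * A4 - 3 * A1 * A3 + A2 ^ 2 = (p * s - q * r) ^ 4 * (t ^ 2 - t + 1) := by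
    rw [hA0, hA1, hA2, hA3, hA4]; ring
  have hJ : 72 * A0 * A2 * A4 + 9 * A1 * A2 * A3 - 27 * A0 * A3 ^ 2 - 27 * A1 ^ 2 * A4 -
      2 * A2 ^ 3 = (p * s - q * r) ^ 6 * ((t + 1) * (2 * t - 1) * (t - 2)) := by
    rw [hA0, hA1, hA2, hA3, hA4]; ring
  rw [h1, h2] at hI hJ
  clear_value A1 A2 A3
  have e5 : A1 * t0 ^ 2 + A2 * t0 + A3 = 0 := (mul_eq_zero.mp e4).resolve_left ht00
  have e6 : A1 * (t0 + 1) + A2 = 0 := by
    have : (t0 - 1) * (A1 * (t0 + 1) + A2) = 0 := by linear_combination e5 - e3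
    exact (mul_eq_zero.mp this).resolve_left (sub_ne_zero.mpr ht0)
  have e7 : A2 = -(t0 + 1) * A1 := by linear_combination e6
  have e8 : A3 = t0 * A1 := by rw [e7] at e3; linear_combination e3
  rw [e7, e8] at hI hJ
  set D := p * s - q * r with hD
  have kI : A1 ^ 2 * (t0 ^ 2 - t0 + 1) = D ^ 4 * (t ^ 2 - t + 1) := by linear_combination hI
  have kJ : A1 ^ 3 * ((t0 + 1) * (2 * t0 - 1) * (t0 - 2)) =
      D ^ 6 * ((t + 1) * (2 * t - 1) * (t - 2)) := by linear_combination hJ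
  have key : D ^ 12 * ((t0 ^ 2 - t0 + 1) ^ 3 * ((t + 1) * (2 * t - 1) * (t - 2)) ^ 2) =
      D ^ 12 * ((t ^ 2 - t + 1) ^ 3 * ((t0 + 1) * (2 * t0 - 1) * (t0 - 2)) ^ 2) := by
    have k1 : A1 ^ 6 * (t0 ^ 2 - t0 + 1) ^ 3 = D ^ 12 * (t ^ 2 - t + 1) ^ 3 := by
      have := congrArg (fun z => z ^ 3) kI
      linear_combination this
    have k2 : A1 ^ 6 * ((t0 + 1) * (2 * t0 - 1) * (t0 - 2)) ^ 2 =
        D ^ 12 * ((t + 1) * (2 * t - 1) * (t - 2)) ^ 2 := by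
      have := congrArg (fun z => z ^ 2) kJ
      linear_combination this
    calc D ^ 12 * ((t0 ^ 2 - t0 + 1) ^ 3 * ((t + 1) * (2 * t - 1) * (t - 2)) ^ 2)
        = (t0 ^ 2 - t0 + 1) ^ 3 * (D ^ 12 * ((t + 1) * (2 * t - 1) * (t - 2)) ^ 2) := by ring
      _ = (t0 ^ 2 - t0 + 1) ^ 3 * (A1 ^ 6 * ((t0 + 1) * (2 * t0 - 1) * (t0 - 2)) ^ 2) := by
          rw [k2]
      _ = (A1 ^ 6 * (t0 ^ 2 - t0 + 1) ^ 3) * ((t0 + 1) * (2 * t0 - 1) * (t0 - 2)) ^ 2 := by ring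
      _ = (D ^ 12 * (t ^ 2 - t + 1) ^ 3) * ((t0 + 1) * (2 * t0 - 1) * (t0 - 2)) ^ 2 := by rw [k1]
      _ = _ := by ring
  exact mul_left_cancel₀ (pow_ne_zero 12 hdet) key

/-- for given `t0 ≠ 0, 1` only finitely many `t` give the same invariant -/
theorem finite_same_invariant (t0 : ℂ) (h0 : t0 ≠ 0) (h1 : t0 ≠ 1) :
    {t : ℂ | I4 t0 ^ 3 * J4 t ^ 2 = I4 t ^ 3 * J4 t0 ^ 2}.Finite := by
  classical
  let P : Polynomial ℂ := Polynomial.C (I4 t0 ^ 3) *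
    ((Polynomial.X + 1) * (2 * Polynomial.X - 1) * (Polynomial.X - 2)) ^ 2 -
    (Polynomial.X ^ 2 - Polynomial.X + 1) ^ 3 * Polynomial.C (J4 t0 ^ 2)
  have hP : ∀ t, P.eval t = I4 t0 ^ 3 * J4 t ^ 2 - I4 t ^ 3 * J4 t0 ^ 2 := by
    intro t
    simp [P, I4, J4]
  have hne : P ≠ 0 := by
    intro h
    have h2 := hP 0
    rw [h, Polynomial.eval_zero] at h2
    have h3 : 27 * (t0 ^ 2 * (t0 - 1) ^ 2) = 0 := by
      unfold I4 J4 at h2
      linear_combination -h2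
    have h4 : t0 ^ 2 * (t0 - 1) ^ 2 ≠ 0 :=
      mul_ne_zero (pow_ne_zero _ h0) (pow_ne_zero _ (sub_ne_zero.mpr h1))
    exact h4 ((mul_eq_zero.mp h3).resolve_left (by norm_num))
  refine (P.roots.toFinset.finite_toSet).subset ?_
  intro t ht
  simp only [Set.mem_ofPred_eq] at ht
  simp only [Finset.mem_coe, Multiset.mem_toFinset, Polynomial.mem_roots hne,
    Polynomial.IsRoot.def]
  rw [hP, ht, sub_self]

end Pool.Agent.R834.Zar
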