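import Mathlib

/-!
# Zariski equisingularity: definitions

Everything is stated for hypersurfaces in affine space over a field `K` (which starts out as the
field of complex numbers, and is replaced by an algebraic closure of `K(u_ij)` at each step of the
inductive definition).
-/

namespace Pool.Agent.R834.Zar

open MvPolynomial

/-- `x` is a simple point of the (reduced) hypersurface `f = 0`: `f` vanishes at `x` and some first
partial derivative of `f` does not. -/
def IsSimple {n : ℕ} {K : Type} [Field K] (f : MvPolynomial (Fin n) K) (x : Fin n → K) : Prop :=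
  eval x f = 0 ∧ ∃ i, eval x (pderiv i f) ≠ 0

/-- The singular locus of the reduced hypersurface `f = 0`. -/
def Sing {n : ℕ} {K : Type} [Field K] (f : MvPolynomial (Fin n) K) : Set (Fin n → K) :=
  {x | eval x f = 0 ∧ ∀ i, eval x (pderiv i f) = 0}

/-- The field `K(u_ij)`, where `u_ij` (`i < r`, `j < r + 1`) are independent indeterminates. -/
def RatField (K : Type) [Field K] (r : ℕ) : Type :=
  FractionRing (MvPolynomial (Fin r × Fin (r + 1)) K)

noncomputable instance instFieldRat (K : Type) [Field K] (r : ℕ) : Field (RatField K r) :=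
  (inferInstance : Field (FractionRing (MvPolynomial (Fin r × Fin (r + 1)) K)))

noncomputable instance instAlgebraPolyRat (K : Type) [Field K] (r : ℕ) :
    Algebra (MvPolynomial (Fin r × Fin (r + 1)) K) (RatField K r) :=
  (inferInstance : Algebra (MvPolynomial (Fin r × Fin (r + 1)) K)
    (FractionRing (MvPolynomial (Fin r × Fin (r + 1)) K)))

noncomputable instance instAlgebraRat (K : Type) [Field K] (r : ℕ) : Algebra K (RatField K r) :=
  (inferInstance : Algebra K (FractionRing (MvPolynomial (Fin r × Fin (r + 1)) K)))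

/-- The algebraic closure of `K(u_ij)`. -/
def GenField (K : Type) [Field K] (r : ℕ) : Type := AlgebraicClosure (RatField K r)

noncomputable instance instFieldGen (K : Type) [Field K] (r : ℕ) : Field (GenField K r) :=
  (inferInstance : Field (AlgebraicClosure (RatField K r)))

noncomputable instance instAlgebraRatGen (K : Type) [Field K] (r : ℕ) :
    Algebra (RatField K r) (GenField K r) :=
  (inferInstance : Algebra (RatField K r) (AlgebraicClosure (RatField K r)))

noncomputable instance instAlgebraGen (K : Type) [Field K] (r : ℕ) : Algebra K (GenField K r) :=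
  (inferInstance : Algebra K (AlgebraicClosure (RatField K r)))

/-- The indeterminate `u_ij`, as an element of `GenField K r`. -/
noncomputable def genU (K : Type) [Field K] (r : ℕ) (i : Fin r) (j : Fin (r + 1)) :
    GenField K r :=
  algebraMap (RatField K r) (GenField K r)
    (algebraMap (MvPolynomial (Fin r × Fin (r + 1)) K) (RatField K r) (X (i, j)))

/-- The linear projection `(X_1, …, X_{r+1}) ↦ (X_1^*, …, X_r^*)`, `X_i^* = ∑_j u_ij X_j`. -/
def proj {L : Type} [Field L] {r : ℕ} (u : Fin r → Fin (r + 1) → L) (x : Fin (r + 1) → L) :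
    Fin r → L :=
  fun i => ∑ j, u i j * x j

/-- The matrix of the coordinate change `(X_1, …, X_{r+1}) ↦ (X_1^*, …, X_r^*, X_{r+1})`. -/
def coordMat {L : Type} [Field L] {r : ℕ} (u : Fin r → Fin (r + 1) → L) :
    Matrix (Fin (r + 1)) (Fin (r + 1)) L :=
  Matrix.of (Fin.snoc (α := fun _ => Fin (r + 1) → L) u (Pi.single (Fin.last r) 1))

/-- The coordinates `X_1^*, …, X_r^*, X_{r+1}` as elements of `L[X_1^*, …, X_r^*][X_{r+1}]`. -/
noncomputable def coord (L : Type) [Field L] (r : ℕ) :
    Fin (r + 1) → Polynomial (MvPolynomial (Fin r) L) :=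
  Fin.snoc (α := fun _ => Polynomial (MvPolynomial (Fin r) L)) (fun i => Polynomial.C (X i))
    Polynomial.X

/-- The old coordinate `X_j` as an element of `L[X_1^*, …, X_r^*][X_{r+1}]`. -/
noncomputable def oldCoord {L : Type} [Field L] {r : ℕ} (u : Fin r → Fin (r + 1) → L)
    (j : Fin (r + 1)) : Polynomial (MvPolynomial (Fin r) L) :=
  ∑ i, Polynomial.C (C ((coordMat u)⁻¹ j i)) * coord L r i

/-- `f` written as a polynomial in `X_{r+1}` with coefficients in `L[X_1^*, …, X_r^*]`. -/
noncomputable def fStar {K L : Type} [Field K] [Field L] [Algebra K L] {r : ℕ}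
    (u : Fin r → Fin (r + 1) → L) (f : MvPolynomial (Fin (r + 1)) K) :
    Polynomial (MvPolynomial (Fin r) L) :=
  aeval (oldCoord u) f

/-- The base change of an (algebraic) subset `W` of `K^n` to a larger field: the common zeros of all
polynomials over `K` that vanish on `W`. -/
def ext {n : ℕ} {K : Type} [Field K] (L : Type) [Field L] [Algebra K L] (W : Set (Fin n → K)) :
    Set (Fin n → L) :=
  {x | ∀ h : MvPolynomial (Fin n) K, (∀ a ∈ W, eval a h = 0) → aeval x h = 0}

/-- `g` is the reduced discriminant of `f` with respect to `X_{r+1}` (for the linear projection with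
coefficients `u`): `g` is squarefree and `g ∣ D ∣ g ^ N` for some `N`, where `D` is the
discriminant. -/
def IsReducedDiscr {K L : Type} [Field K] [Field L] [Algebra K L] {r : ℕ}
    (u : Fin r → Fin (r + 1) → L) (f : MvPolynomial (Fin (r + 1)) K)
    (g : MvPolynomial (Fin r) L) : Prop :=
  Squarefree g ∧ g ∣ (fStar u f).discr ∧ ∃ N : ℕ, (fStar u f).discr ∣ g ^ N

/-- The inductive step in the definition of equisingularity of the reduced hypersurface
`V : f = 0` in `A^{r+1}` at the point `Q` along the irreducible subvariety `W` of `V` (given by its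
set of points).

* If `W` is not contained in the singular locus of `V`, then `Q` has to be a simple point of `V`.
* Otherwise, `next g (π^*(W)) (π^*(Q))` has to hold, where `π^*` is the linear projection with
  coefficients `u` and `g` is the reduced discriminant of `f` with respect to `X_{r+1}`. -/
def EquisingularStep {K L : Type} [Field K] [Field L] [Algebra K L] {r : ℕ}
    (u : Fin r → Fin (r + 1) → L)
    (next : MvPolynomial (Fin r) L → Set (Fin r → L) → (Fin r → L) → Prop)
    (f : MvPolynomial (Fin (r + 1)) K) (W : Set (Fin (r + 1) → K)) (Q : Fin (r + 1) → K) : Prop :=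
  (¬ W ⊆ Sing f → IsSimple f Q) ∧
  (W ⊆ Sing f → ∃ g, IsReducedDiscr u f g ∧
    next g (proj u '' ext L W) (proj u (fun i => algebraMap K L (Q i))))

/-- Zariski's equisingularity of the reduced hypersurface `V : f = 0` in `A^{r+1}` at the point `Q`
along the irreducible subvariety `W` of `V` (given by its set of points), by induction on `r`.

* If `W` is not contained in the singular locus of `V`, it means that `Q` is a simple point of `V`.
* Otherwise, it means that the branch hypersurface `Δ^*` of the generic projection `π^*`, that is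
  the hypersurface `g = 0` with `g` the reduced discriminant of `f` with respect to `X_{r+1}`, is
  equisingular at `π^*(Q)` along `π^*(W)`, over the algebraic closure `GenField` of `K(u_ij)`.

(If `r = 0` and `V` is reduced then `V` has no singular points.) -/
def Equisingular : (r : ℕ) → (K : Type) → [Field K] → MvPolynomial (Fin (r + 1)) K →
    Set (Fin (r + 1) → K) → (Fin (r + 1) → K) → Prop
  | 0, _, _, f, _, Q => IsSimple f Q
  | r + 1, K, _, f, W, Q =>
    EquisingularStep (genU K (r + 1)) (Equisingular r (GenField K (r + 1))) f W Q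

/-- `Eqs(W/V)`: the set of points `Q` of `W` such that `V : f = 0` is equisingular at `Q` along
`W`. -/
def Eqs {r : ℕ} (f : MvPolynomial (Fin (r + 1)) ℂ) (W : Set (Fin (r + 1) → ℂ)) :
    Set (Fin (r + 1) → ℂ) :=
  {Q | Q ∈ W ∧ Equisingular r ℂ f W Q}

/-! ### Blowing up -/

/-- The common zeros of `h_1, …, h_m`. -/
def zeros {n m : ℕ} (h : Fin m → MvPolynomial (Fin n) ℂ) : Set (Fin n → ℂ) :=
  {x | ∀ j, eval x (h j) = 0}

/-- The affine chart `y_i = 1` of the blowing-up `V^*` of the hypersurface `V : f = 0` with centre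
`W`, where `h_1, …, h_m` generate the ideal of `W`: the Zariski closure in `ℂ^n × ℂ^m` of the set of
all points `(x, (h_j(x) / h_i(x))_j)` with `x ∈ V`, `h_i(x) ≠ 0`. (The blowing-up is the Zariski
closure of the set of all `(x, [h_1(x) : … : h_m(x)])`, `x ∈ V ∖ W`, in `ℂ^n × ℙ^(m-1)`.)

The map `T^* : V^* → V` is the first projection. -/
def blowup {n m : ℕ} (f : MvPolynomial (Fin n) ℂ) (h : Fin m → MvPolynomial (Fin n) ℂ)
    (i : Fin m) : Set ((Fin n → ℂ) × (Fin m → ℂ)) :=
  {P | ∀ G : MvPolynomial (Fin n ⊕ Fin m) ℂ,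
    (∀ x, eval x f = 0 → eval x (h i) ≠ 0 →
      eval (Sum.elim x (fun j => eval x (h j) / eval x (h i))) G = 0) →
    eval (Sum.elim P.1 P.2) G = 0}

/-- `P` is a simple point of the Zariski closed subset `Z` of `ℂ^n × ℂ^m`, all of whose components
have codimension `c` (Jacobian criterion): there are `c` polynomials vanishing on `Z` whose
gradients at `P` are linearly independent. -/
def IsSimpleOn {n m : ℕ} (c : ℕ) (Z : Set ((Fin n → ℂ) × (Fin m → ℂ)))
    (P : (Fin n → ℂ) × (Fin m → ℂ)) : Prop :=
  P ∈ Z ∧ ∃ G : Fin c → MvPolynomial (Fin n ⊕ Fin m) ℂ,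
    (∀ k, ∀ R ∈ Z, eval (Sum.elim R.1 R.2) (G k) = 0) ∧
    LinearIndependent ℂ (fun k (i : Fin n ⊕ Fin m) => eval (Sum.elim P.1 P.2) (pderiv i (G k)))

/-! ### Analytic isomorphisms -/

/-- `φ` is analytic on the subset `A` of `E`: near each point of `A` it is the restriction to `A`
of an analytic map defined on a neighborhood of the point in `E`. -/
def IsAnalyticOn {E F : Type} [NormedAddCommGroup E] [NormedSpace ℂ E] [NormedAddCommGroup F]
    [NormedSpace ℂ F] (A : Set E) (φ : E → F) : Prop :=
  ∀ p ∈ A, ∃ Φ : E → F, AnalyticAt ℂ Φ p ∧ φ =ᶠ[nhdsWithin p A] Φ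

/-- `φ` is an analytic isomorphism from the subset `A` of `E` onto the subset `B` of `F`. -/
def IsAnalyticIso {E F : Type} [NormedAddCommGroup E] [NormedSpace ℂ E] [NormedAddCommGroup F]
    [NormedSpace ℂ F] (A : Set E) (B : Set F) (φ : E → F) : Prop :=
  Set.BijOn φ A B ∧ IsAnalyticOn A φ ∧
    ∃ ψ : F → E, Set.InvOn ψ φ A B ∧ IsAnalyticOn B ψ

/-- Local analytic product structure at `Qs` of `S ⊆ ℂ^n × ℂ^m` over `W1 ⊆ ℂ^n`, with respect to
the first projection `T^*`: with `Q = T^*(Qs)` there are a neighborhood `N1` of `Q` in `W1`, a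
neighborhood `N2` of `Qs` in `{P ∈ S | T^*(P) = Q}`, a neighborhood `N3` of `Qs` in `S` and an
analytic isomorphism `φ : N1 × N2 → N3` such that `T^* ∘ φ` is the projection onto the first
factor. -/
def LocalProduct {n m : ℕ} (W1 : Set (Fin n → ℂ)) (S : Set ((Fin n → ℂ) × (Fin m → ℂ)))
    (Qs : (Fin n → ℂ) × (Fin m → ℂ)) : Prop :=
  ∃ (N1 : Set (Fin n → ℂ)) (N2 N3 : Set ((Fin n → ℂ) × (Fin m → ℂ)))
    (φ : (Fin n → ℂ) × ((Fin n → ℂ) × (Fin m → ℂ)) → (Fin n → ℂ) × (Fin m → ℂ)),
    N1 ⊆ W1 ∧ N1 ∈ nhdsWithin Qs.1 W1 ∧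
    N2 ⊆ {P ∈ S | P.1 = Qs.1} ∧ N2 ∈ nhdsWithin Qs {P ∈ S | P.1 = Qs.1} ∧
    N3 ⊆ S ∧ N3 ∈ nhdsWithin Qs S ∧
    IsAnalyticIso (N1 ×ˢ N2) N3 φ ∧ ∀ p ∈ N1 ×ˢ N2, (φ p).1 = p.1

end Pool.Agent.R834.Zar
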