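import Pool.Agent.R834.Zar.Good

/-!
The discriminant of a squarefree polynomial with respect to a generic projection.
-/

namespace Pool.Agent.R834.Zar

open MvPolynomial

theorem derivative_line {n : ℕ} {K A : Type} [Field K] [CommRing A] [Algebra K A]
    (q w : Fin n → A) (f : MvPolynomial (Fin n) K) :
    (line q w f).derivative = ∑ j, Polynomial.C (w j) * line q w (pderiv j f) := by
  unfold line
  induction f using MvPolynomial.induction_on with
  | C a =>
    simp only [aeval_C, pderiv_C, map_zero, mul_zero, Finset.sum_const_zero]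
    rw [Polynomial.algebraMap_apply, Polynomial.derivative_C]
  | add p q hp hq =>
    simp only [map_add, hp, hq, mul_add, Finset.sum_add_distrib]
  | mul_X p i hp =>
    rw [map_mul, Polynomial.derivative_mul, hp, aeval_X]
    have : ∀ j, pderiv j (p * X i) = pderiv j p * X i + p * Pi.single (M := fun _ =>
        MvPolynomial (Fin n) K) j 1 i := by
      intro j
      rw [pderiv_mul, pderiv_X]
    simp_rw [this, map_add, map_mul, aeval_X, mul_add, Finset.sum_add_distrib]
    rw [Finset.sum_mul]
    refine congrArg₂ (· + ·) ?_ ?_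
    · simp only [Finset.sum_mul, mul_assoc]
    · rw [Finset.sum_eq_single i]
      · simp only [Pi.single_eq_same, map_one, mul_one,
          Polynomial.derivative_C, zero_add, Polynomial.derivative_mul, zero_mul,
          Polynomial.derivative_X]
        rw [mul_zero, zero_add]
        exact mul_comm _ _
      · intro j _ hj
        rw [Pi.single_eq_of_ne (Ne.symm hj), map_zero, mul_zero, mul_zero]
      · intro h
        exact absurd (Finset.mem_univ i) h

theorem eval_line {n : ℕ} {K A : Type} [Field K] [CommRing A] [Algebra K A]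
    (q w : Fin n → A) (f : MvPolynomial (Fin n) K) (t : A) :
    (line q w f).eval t = aeval (fun j => q j + w j * t) f := by
  unfold line
  induction f using MvPolynomial.induction_on with
  | C a => rw [aeval_C, aeval_C, Polynomial.algebraMap_apply, Polynomial.eval_C]
  | add p q hp hq => rw [map_add, Polynomial.eval_add, hp, hq, map_add]
  | mul_X p i hp =>
    rw [map_mul, Polynomial.eval_mul, hp, map_mul, aeval_X, aeval_X]
    simp

variable {K L : Type} [Field K] [Field L] [Algebra K L] {r : ℕ}

/-- the direction of the kernel of the projection, normalised to have last coordinate `1` -/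
noncomputable def kerDir (u : Fin r → Fin (r + 1) → L) (j : Fin (r + 1)) : L :=
  (coordMat u)⁻¹ j (Fin.last r)

/-- genericity of the projection -/
def Generic (K : Type) [Field K] [Algebra K L] (u : Fin r → Fin (r + 1) → L) : Prop :=
  (coordMat u).det ≠ 0 ∧ ∀ (P : MvPolynomial (Fin (r + 1)) K) (w : Fin (r + 1) → K),
    w (Fin.last r) = 1 → eval w P ≠ 0 → aeval (kerDir u) P ≠ 0

/-- the part of `M⁻¹ (y, 0)` -/
noncomputable def base (u : Fin r → Fin (r + 1) → L) (y : Fin r → L) (j : Fin (r + 1)) : L :=
  ∑ i : Fin r, (coordMat u)⁻¹ j (Fin.castSucc i) * y i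

noncomputable def baseX (u : Fin r → Fin (r + 1) → L) (j : Fin (r + 1)) :
    MvPolynomial (Fin r) L :=
  ∑ i : Fin r, C ((coordMat u)⁻¹ j (Fin.castSucc i)) * X i

theorem star_eq_line (u : Fin r → Fin (r + 1) → L) (f : MvPolynomial (Fin (r + 1)) K) :
    fStar u f = line (A := MvPolynomial (Fin r) (L)) (baseX u)
      (fun j => C (kerDir u j)) f := by
  have h : (fun j => oldCoord u j) =
      (fun j => Polynomial.C (baseX u j) + Polynomial.C (C (kerDir u j)) * Polynomial.X) := by
    funext j
    unfold oldCoord
    rw [Fin.sum_univ_castSucc]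
    unfold baseX coord kerDir
    simp [map_sum]
  have h' : oldCoord u = (fun j => oldCoord u j) := rfl
  unfold fStar line
  rw [h', h]

theorem star_map (u : Fin r → Fin (r + 1) → L) (f : MvPolynomial (Fin (r + 1)) K)
    (y : Fin r → L) :
    (fStar u f).map (eval y) = line (base u y) (kerDir u) f := by
  rw [star_eq_line]
  have h := line_map ((aeval y : MvPolynomial (Fin r) (L) →ₐ[L]
    L).restrictScalars K) (baseX u) (fun j => C (kerDir u j)) f
  have e1 : (((aeval y : MvPolynomial (Fin r) (L) →ₐ[L]
    L).restrictScalars K : MvPolynomial (Fin r) (L) →ₐ[K] L) :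
    MvPolynomial (Fin r) (L) →+* L) = eval y := by
    ext <;> simp
  rw [e1] at h
  rw [h]
  congr 1
  · funext j
    simp [baseX, base]
  · funext j
    simp

theorem star_degree (u : Fin r → Fin (r + 1) → L) (hu : Generic K u) (f : MvPolynomial (Fin (r + 1)) K) (hf : f ≠ 0) [Infinite K] :
    (fStar u f).natDegree = f.totalDegree ∧
    (fStar u f).coeff f.totalDegree =
      C (aeval (kerDir u) (homogeneousComponent f.totalDegree f)) ∧
    aeval (kerDir u) (homogeneousComponent f.totalDegree f) ≠ 0 := by
  obtain ⟨w, hw1, hw⟩ := exists_dir f hf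
  have hne := hu.2 (homogeneousComponent f.totalDegree f) w hw1 hw
  have h := coeff_line (A := MvPolynomial (Fin r) (L)) (baseX u)
      (fun j => C (kerDir u j)) f (le_refl _)
  rw [← star_eq_line] at h
  have h2 : aeval (fun j => (C (kerDir u j) : MvPolynomial (Fin r) (L)))
      (homogeneousComponent f.totalDegree f)
      = C (aeval (kerDir u) (homogeneousComponent f.totalDegree f)) := by
    induction (homogeneousComponent f.totalDegree f) using MvPolynomial.induction_on with
    | C a =>
      rw [aeval_C, aeval_C, IsScalarTower.algebraMap_apply K (L)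
        (MvPolynomial (Fin r) (L)), algebraMap_eq]
    | add p q hp hq => simp only [map_add, hp, hq]
    | mul_X p i hp => simp only [map_mul, hp, aeval_X]
  rw [h2] at h
  refine ⟨le_antisymm h.1 (Polynomial.le_natDegree_of_ne_zero ?_), h.2, hne⟩
  rw [h.2]
  exact (map_ne_zero_iff _ (C_injective _ _)).mpr hne

theorem base_proj (u : Fin r → Fin (r + 1) → L) (hu : (coordMat u).det ≠ 0)
    (x : Fin (r + 1) → L) (j : Fin (r + 1)) :
    base u (proj u x) j = x j - kerDir u j * x (Fin.last r) := by
  have h1 : ((coordMat u)⁻¹).mulVec ((coordMat u).mulVec x) j = x j := by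
    rw [Matrix.mulVec_mulVec, Matrix.nonsing_inv_mul, Matrix.one_mulVec]
    exact isUnit_iff_ne_zero.mpr hu
  rw [← h1, Matrix.mulVec, dotProduct, Fin.sum_univ_castSucc]
  have h2 : (coordMat u).mulVec x (Fin.last r) = x (Fin.last r) := by
    rw [Matrix.mulVec, dotProduct]
    simp [coordMat, Pi.single_apply, Finset.sum_ite_eq']
  have h3 : ∀ i : Fin r, (coordMat u).mulVec x (Fin.castSucc i) = proj u x i := by
    intro i
    rw [Matrix.mulVec, dotProduct]
    simp [coordMat, proj]
  rw [h2]
  simp_rw [h3]
  unfold base kerDir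
  ring

theorem discr_ne_zero [CharZero K] (u : Fin r → Fin (r + 1) → L) (hu : Generic K u)
    (f : MvPolynomial (Fin (r + 1)) K) (hf : Squarefree f)
    (hd : f.totalDegree ≠ 0) : (fStar u f).discr ≠ 0 := by
  obtain ⟨p, w, hp, hw, htop, hres⟩ := exists_good f hf
  obtain ⟨hdeg, hcoef, hne⟩ := star_degree u hu f hf.ne_zero
  set d := f.totalDegree with hdd
  -- the resultant as a polynomial in the direction
  let P : MvPolynomial (Fin (r + 1)) K :=
    lineRes (A := MvPolynomial (Fin (r + 1)) K) d (fun j => C (p j)) X f
  have hP1 : eval w P = lineRes d p w f := by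
    have := lineRes_map (aeval w : MvPolynomial (Fin (r + 1)) K →ₐ[K] K) d
      (fun j => C (p j)) X f
    simp only [aeval_X, aeval_C, Algebra.algebraMap_self, RingHom.id_apply] at this
    exact this
  have hP2 := hu.2 P w hw (by rw [hP1]; exact hres)
  have hP3 : aeval (kerDir u) P = lineRes d (fun j => algebraMap K (L) (p j))
      (kerDir u) f := by
    have := lineRes_map (aeval (kerDir u) : MvPolynomial (Fin (r + 1)) K →ₐ[K] L) d
      (fun j => C (p j)) X f
    simp only [aeval_X, aeval_C] at this
    exact this
  rw [hP3] at hP2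
  -- identify with a specialisation of the resultant of `fStar u f`
  have hb : base u (proj u (fun j => algebraMap K (L) (p j))) =
      fun j => algebraMap K (L) (p j) := by
    funext j
    rw [base_proj u hu.1, hp, map_zero, mul_zero, sub_zero]
  have hmap := star_map u f (proj u (fun j => algebraMap K (L) (p j)))
  rw [hb] at hmap
  unfold lineRes at hP2
  rw [← hmap, Polynomial.derivative_map, Polynomial.resultant_map_map] at hP2
  intro h0
  apply hP2
  have h1 : 0 < (fStar u f).degree := by
    rw [← Polynomial.natDegree_pos_iff_degree_pos, hdeg]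
    exact Nat.pos_of_ne_zero hd
  have h2 := Polynomial.resultant_deriv h1
  rw [hdeg, h0, mul_zero] at h2
  rw [h2, map_zero]

theorem discr_vanish (u : Fin r → Fin (r + 1) → L) (hu : Generic K u)
    (f : MvPolynomial (Fin (r + 1)) K) (hf : f ≠ 0) [Infinite K]
    (hd : f.totalDegree ≠ 0) (x : Fin (r + 1) → L) (h0 : aeval x f = 0)
    (h1 : ∀ i, aeval x (pderiv i f) = 0) : eval (proj u x) (fStar u f).discr = 0 := by
  obtain ⟨hdeg, hcoef, hne⟩ := star_degree u hu f hf
  obtain ⟨a, b, -, -, hab⟩ := Polynomial.exists_mul_add_mul_eq_C_resultant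
    (m := f.totalDegree) (n := f.totalDegree - 1) (fStar u f) (fStar u f).derivative hdeg.le
    ((Polynomial.natDegree_derivative_le _).trans (by rw [hdeg])) (Or.inl hd)
  have hpt : (fun j => base u (proj u x) j + kerDir u j * x (Fin.last r)) = x := by
    funext j
    rw [base_proj u hu.1]; ring
  have e1 : ((fStar u f).map (eval (proj u x))).eval (x (Fin.last r)) = 0 := by
    rw [star_map, eval_line, hpt, h0]
  have e2 : (((fStar u f).derivative).map (eval (proj u x))).eval (x (Fin.last r)) = 0 := by
    rw [← Polynomial.derivative_map, star_map, derivative_line, Polynomial.eval_finsetSum]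
    refine Finset.sum_eq_zero (fun j _ => ?_)
    rw [Polynomial.eval_mul, eval_line, hpt, h1 j, mul_zero]
  have e3 := congrArg (fun g => (g.map (eval (proj u x))).eval (x (Fin.last r))) hab
  simp only [Polynomial.map_add, Polynomial.map_mul, Polynomial.eval_add, Polynomial.eval_mul,
    e1, e2, zero_mul, add_zero, Polynomial.map_C, Polynomial.eval_C] at e3
  have h3 : 0 < (fStar u f).degree := by
    rw [← Polynomial.natDegree_pos_iff_degree_pos, hdeg]
    exact Nat.pos_of_ne_zero hd
  have h2 := Polynomial.resultant_deriv h3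
  rw [hdeg] at h2
  have hlc : (fStar u f).leadingCoeff =
      C (aeval (kerDir u) (homogeneousComponent f.totalDegree f)) := by
    rw [Polynomial.leadingCoeff, hdeg, hcoef]
  rw [h2, hlc, map_mul, map_mul, map_pow, map_neg, map_one, eval_C] at e3
  have h4 : (-1 : L) ^ (f.totalDegree * (f.totalDegree - 1) / 2) *
      (aeval (kerDir u) (homogeneousComponent f.totalDegree f)) ≠ 0 :=
    mul_ne_zero (pow_ne_zero _ (neg_ne_zero.mpr one_ne_zero)) hne
  exact (mul_eq_zero.mp e3.symm).resolve_left h4

end Pool.Agent.R834.Zar
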