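import Pool.Agent.R834.Zar.Spec

/-!
Along a line, a reduced hypersurface is equisingular at all but finitely many points.
-/

namespace Pool.Agent.R834.Zar

open MvPolynomial

/-- the line through `p` with direction `v` -/
def lineSet {n : ℕ} {K : Type} [Field K] (p v : Fin n → K) : Set (Fin n → K) :=
  Set.range (fun t : K => (fun j => p j + v j * t))

theorem ext_lineSet {n : ℕ} {K : Type} [Field K] [Infinite K] (L : Type) [Field L] [Algebra K L]
    (p v : Fin n → K) (hv : v ≠ 0) : ext L (lineSet p v) =
      lineSet (fun j => algebraMap K L (p j)) (fun j => algebraMap K L (v j)) := by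
  apply Set.Subset.antisymm
  · intro x hx
    obtain ⟨j0, hj0⟩ : ∃ j, v j ≠ 0 := by
      by_contra h
      push Not at h
      exact hv (funext h)
    have hL : algebraMap K L (v j0) ≠ 0 := (map_ne_zero _).mpr hj0
    refine ⟨(x j0 - algebraMap K L (p j0)) / algebraMap K L (v j0), ?_⟩
    funext i
    have h1 := hx (C (v j0) * (X i - C (p i)) - C (v i) * (X j0 - C (p j0))) (by
      rintro a ⟨t, rfl⟩
      simp
      ring)
    simp only [map_sub, map_mul, aeval_X, aeval_C] at h1
    simp only
    field_simp
    linear_combination -h1
  · rintro x ⟨t, rfl⟩ h hh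
    have h1 : line p v h = 0 := by
      refine Polynomial.funext (fun s => ?_)
      rw [eval_line, Polynomial.eval_zero]
      exact hh _ ⟨s, rfl⟩
    have h2 := line_map (Algebra.ofId K L) p v h
    rw [h1, Polynomial.map_zero] at h2
    have h3 := congrArg (Polynomial.eval t) h2
    rw [eval_line, Polynomial.eval_zero] at h3
    exact h3.symm

theorem proj_line {L : Type} [Field L] {r : ℕ} (u : Fin r → Fin (r + 1) → L)
    (p v : Fin (r + 1) → L) (t : L) :
    proj u (fun j => p j + v j * t) = fun i => proj u p i + proj u v i * t := by
  funext i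
  unfold proj
  rw [Finset.sum_mul, ← Finset.sum_add_distrib]
  refine Finset.sum_congr rfl (fun j _ => ?_)
  ring

theorem proj_image_line {L : Type} [Field L] {r : ℕ} (u : Fin r → Fin (r + 1) → L)
    (p v : Fin (r + 1) → L) :
    proj u '' lineSet p v = lineSet (proj u p) (proj u v) := by
  unfold lineSet
  rw [← Set.range_comp]
  congr 1
  funext t
  exact proj_line u p v t

theorem proj_ne_zero {K : Type} [Field K] {r : ℕ} (v : Fin (r + 1 + 1) → K) (hv : v ≠ 0) :
    proj (genU K (r + 1)) (fun j => algebraMap K (GenField K (r + 1)) (v j)) ≠ 0 := by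
  obtain ⟨j0, hj0⟩ : ∃ j, v j ≠ 0 := by
    by_contra h
    push Not at h
    exact hv (funext h)
  intro h
  have h1 := congrFun h 0
  unfold proj at h1
  have h2 : algebraMap (MvPolynomial (Fin (r + 1) × Fin (r + 1 + 1)) K) (GenField K (r + 1))
      (∑ j, X (0, j) * C (v j)) = 0 := by
    rw [map_sum]
    refine Eq.trans (Finset.sum_congr rfl (fun j _ => ?_)) h1
    rw [map_mul]
    congr 1
  rw [map_eq_zero_iff _ algebraMap_inj] at h2
  have h3 := congrArg (eval (fun q : Fin (r + 1) × Fin (r + 1 + 1) => if q.2 = j0 then (1 : K)
    else 0)) h2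
  simp at h3
  exact hj0 h3

theorem finite_bad : ∀ (r : ℕ) (K : Type) [Field K] [CharZero K]
    (f : MvPolynomial (Fin (r + 1)) K) (_ : Squarefree f) (p v : Fin (r + 1) → K), v ≠ 0 →
    (∀ a ∈ lineSet p v, eval a f = 0) →
    {t : K | ¬ Equisingular r K f (lineSet p v) (fun j => p j + v j * t)}.Finite := by
  intro r
  induction r with
  | zero =>
    intro K _ _ f hf p v hv h0
    exfalso
    apply hf.ne_zero
    refine MvPolynomial.funext (fun x => ?_)
    rw [map_zero]
    apply h0
    obtain ⟨j0, hj0⟩ : ∃ j, v j ≠ 0 := by
      by_contra h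
      push Not at h
      exact hv (funext h)
    refine ⟨(x j0 - p j0) / v j0, ?_⟩
    funext i
    have : i = j0 := by
      apply Fin.ext
      have := i.2
      have := j0.2
      omega
    subst this
    field_simp
    ring
  | succ r ih =>
    intro K _ _ f hf p v hv h0
    by_cases hW : lineSet p v ⊆ Sing f
    · -- pass to the discriminant
      have hf0 := hf.ne_zero
      have hd : f.totalDegree ≠ 0 := by
        intro h
        rw [totalDegree_eq_zero_iff_eq_C] at h
        have h1 := h0 _ ⟨0, rfl⟩
        rw [h, eval_C] at h1
        rw [h1, C_0] at h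
        exact hf0 h
      obtain ⟨g, N, hg, hgd, hdg⟩ :=
        exists_squarefree_dvd_pow_of_ne_zero (discr_ne_zero (genU K (r + 1)) generic_genU f hf hd)
      have : CharZero (GenField K (r + 1)) :=
        charZero_of_injective_algebraMap (algebraMap K (GenField K (r + 1))).injective
      have hline : proj (genU K (r + 1)) '' ext (GenField K (r + 1)) (lineSet p v) =
          lineSet (proj (genU K (r + 1)) (fun j => algebraMap K (GenField K (r + 1)) (p j)))
            (proj (genU K (r + 1)) (fun j => algebraMap K (GenField K (r + 1)) (v j))) := by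
        rw [ext_lineSet _ p v hv, proj_image_line]
      have hvan : ∀ a ∈ lineSet (proj (genU K (r + 1)) (fun j => algebraMap K (GenField K (r + 1)) (p j)))
            (proj (genU K (r + 1)) (fun j => algebraMap K (GenField K (r + 1)) (v j))), eval a g = 0 := by
        rw [← hline]
        rintro a ⟨x, hx, rfl⟩
        have h1 : eval (proj (genU K (r + 1)) x) (fStar (genU K (r + 1)) f).discr = 0 := by
          refine discr_vanish (genU K (r + 1)) generic_genU f hf0 hd x (hx f (fun a ha => (hW ha).1)) (fun i => ?_)
          exact hx _ (fun a ha => (hW ha).2 i)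
        obtain ⟨c, hc⟩ := hdg
        have h2 := congrArg (eval (proj (genU K (r + 1)) x)) hc
        rw [map_mul, h1, zero_mul, map_pow] at h2
        exact eq_zero_of_pow_eq_zero h2
      have key := ih (GenField K (r + 1)) g hg _ _ (proj_ne_zero v hv) hvan
      refine (key.preimage (f := algebraMap K (GenField K (r + 1)))
        ((algebraMap K (GenField K (r + 1))).injective.injOn)).subset ?_
      intro t ht
      simp only [Set.mem_ofPred_eq, Set.mem_preimage] at ht ⊢
      intro hE
      apply ht
      unfold Equisingular EquisingularStep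
      refine ⟨fun h => absurd hW h, fun _ => ⟨g, ⟨hg, hgd, N, hdg⟩, ?_⟩⟩
      rw [hline]
      have : (fun j => proj (genU K (r + 1)) (fun j => algebraMap K (GenField K (r + 1)) (p j)) j +
          proj (genU K (r + 1)) (fun j => algebraMap K (GenField K (r + 1)) (v j)) j *
          algebraMap K (GenField K (r + 1)) t) =
          proj (genU K (r + 1)) (fun i => algebraMap K (GenField K (r + 1)) (p i + v i * t)) := by
        rw [← proj_line]
        congr 1
        funext i
        rw [map_add, map_mul]
      rw [← this]
      exact hE
    · -- simple points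
      classical
      obtain ⟨a, ha, hs⟩ := Set.not_subset.mp hW
      have h1 : ∃ i, eval a (pderiv i f) ≠ 0 := by
        by_contra h
        push Not at h
        exact hs ⟨h0 a ha, h⟩
      obtain ⟨i, hi⟩ := h1
      have hne : line p v (pderiv i f) ≠ 0 := by
        intro h
        obtain ⟨t, rfl⟩ := ha
        apply hi
        have := eval_line p v (pderiv i f) t
        rw [h, Polynomial.eval_zero] at this
        exact this.symm
      refine ((line p v (pderiv i f)).roots.toFinset.finite_toSet).subset ?_
      intro t ht
      simp only [Set.mem_ofPred_eq] at ht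
      simp only [Finset.mem_coe, Multiset.mem_toFinset, Polynomial.mem_roots hne,
        Polynomial.IsRoot.def]
      by_contra hne2
      apply ht
      unfold Equisingular EquisingularStep
      refine ⟨fun _ => ⟨h0 _ ⟨t, rfl⟩, i, ?_⟩, fun h => absurd h hW⟩
      rw [eval_line] at hne2
      exact hne2

end Pool.Agent.R834.Zar
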