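import Pool.Agent.R834.Zar.Line

/-!
A squarefree polynomial restricts to a separable polynomial on a suitable line.
-/

namespace Pool.Agent.R834.Zar

open MvPolynomial

theorem separable_of_squarefree {A : Type} [CommRing A] [IsDomain A] [IsIntegrallyClosed A]
    [CharZero A] (G : Polynomial A) (hG : G.Monic) (hs : Squarefree G) :
    (G.map (algebraMap A (FractionRing A))).Separable := by
  have : CharZero (FractionRing A) :=
    charZero_of_injective_algebraMap (IsFractionRing.injective A (FractionRing A))
  rw [PerfectField.separable_iff_squarefree]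
  intro q hq
  have hq0 : q ∣ G.map (algebraMap A (FractionRing A)) := (dvd_mul_right q q).trans hq
  have hqne : q ≠ 0 := ne_zero_of_dvd_ne_zero (hG.map _).ne_zero hq0
  obtain ⟨g', hg'⟩ := IsIntegrallyClosed.eq_map_mul_C_of_dvd (FractionRing A) hG hq0
  have hlc : q.leadingCoeff ≠ 0 := Polynomial.leadingCoeff_ne_zero.mpr hqne
  have hmon : g'.Monic := by
    have h1 : (g'.map (algebraMap A (FractionRing A))).leadingCoeff * q.leadingCoeff
        = q.leadingCoeff := by
      conv_rhs => rw [← hg']
      rw [Polynomial.leadingCoeff_mul, Polynomial.leadingCoeff_C]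
    have h2 : (g'.map (algebraMap A (FractionRing A))).leadingCoeff = 1 :=
      mul_right_cancel₀ hlc (by rw [h1, one_mul])
    rw [Polynomial.leadingCoeff_map_of_injective
      (IsFractionRing.injective A (FractionRing A))] at h2
    exact IsFractionRing.injective A (FractionRing A) (by rw [h2, map_one])
  have hdvd : (g' * g').map (algebraMap A (FractionRing A)) ∣
      G.map (algebraMap A (FractionRing A)) := by
    refine dvd_trans ?_ hq
    rw [Polynomial.map_mul]
    refine mul_dvd_mul ?_ ?_ <;> exact ⟨_, hg'.symm⟩
  have := hs g' (hG.dvd_of_fraction_map_dvd_fraction_map (hmon.mul hmon) hdvd)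
  rw [← hg']
  refine IsUnit.mul ?_ ?_
  · have h3 := this.map (Polynomial.mapRingHom (algebraMap A (FractionRing A)))
    simpa using h3
  · exact Polynomial.isUnit_C.mpr (isUnit_iff_ne_zero.mpr hlc)

/-- the resultant of a monic squarefree polynomial and its derivative is nonzero -/
theorem resultant_ne_zero_of_squarefree {A : Type} [CommRing A] [IsDomain A]
    [IsIntegrallyClosed A] [CharZero A] (G : Polynomial A) (hG : G.Monic) (hs : Squarefree G) :
    Polynomial.resultant G G.derivative G.natDegree (G.natDegree - 1) ≠ 0 := by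
  have : CharZero (FractionRing A) :=
    charZero_of_injective_algebraMap (IsFractionRing.injective A (FractionRing A))
  have hsep := separable_of_squarefree G hG hs
  have h1 := Polynomial.resultant_ne_zero _ _ hsep
  intro h
  apply h1
  have h2 : (G.map (algebraMap A (FractionRing A))).natDegree = G.natDegree :=
    Polynomial.natDegree_map_eq_of_injective (IsFractionRing.injective A (FractionRing A)) G
  rw [Polynomial.natDegree_derivative, h2, Polynomial.derivative_map,
    Polynomial.resultant_map_map, h, map_zero]

variable {K : Type} [Field K] {r : ℕ}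

/-- The substitution `X_j ↦ Y_j + w_j T` (`j < r`), `X_r ↦ T`. -/
noncomputable def slant (w : Fin (r + 1) → K) (f : MvPolynomial (Fin (r + 1)) K) :
    Polynomial (MvPolynomial (Fin r) K) :=
  line (A := MvPolynomial (Fin r) K)
    (Fin.snoc (α := fun _ => MvPolynomial (Fin r) K) (fun i => X i) 0) (fun j => C (w j)) f

/-- the inverse substitution -/
noncomputable def unslant (w : Fin (r + 1) → K) :
    Polynomial (MvPolynomial (Fin r) K) →+* MvPolynomial (Fin (r + 1)) K :=
  Polynomial.eval₂RingHom
    ((aeval (fun i : Fin r => (X (Fin.castSucc i) - C (w (Fin.castSucc i)) * X (Fin.last r) :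
      MvPolynomial (Fin (r + 1)) K)) : MvPolynomial (Fin r) K →ₐ[K] MvPolynomial (Fin (r + 1)) K) :
      MvPolynomial (Fin r) K →+* MvPolynomial (Fin (r + 1)) K) (X (Fin.last r))

noncomputable def slantHom (w : Fin (r + 1) → K) :
    MvPolynomial (Fin (r + 1)) K →+* Polynomial (MvPolynomial (Fin r) K) :=
  ((aeval (fun j => Polynomial.C
    ((Fin.snoc (α := fun _ => MvPolynomial (Fin r) K) (fun i => X i) 0 :
      Fin (r + 1) → MvPolynomial (Fin r) K) j) + Polynomial.C (C (w j)) * Polynomial.X) :
    MvPolynomial (Fin (r + 1)) K →ₐ[K] Polynomial (MvPolynomial (Fin r) K)) :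
    MvPolynomial (Fin (r + 1)) K →+* Polynomial (MvPolynomial (Fin r) K))

theorem slantHom_apply (w : Fin (r + 1) → K) (f : MvPolynomial (Fin (r + 1)) K) :
    slantHom w f = slant w f := rfl

theorem slantHom_C (w : Fin (r + 1) → K) (a : K) :
    slantHom w (C a) = Polynomial.C (C a) := by
  unfold slantHom
  simp only [RingHom.coe_coe, aeval_C]
  rw [Polynomial.algebraMap_apply, algebraMap_eq]

theorem slantHom_X (w : Fin (r + 1) → K) (j : Fin (r + 1)) :
    slantHom w (X j) = Polynomial.C
    ((Fin.snoc (α := fun _ => MvPolynomial (Fin r) K) (fun i => X i) 0 :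
      Fin (r + 1) → MvPolynomial (Fin r) K) j) + Polynomial.C (C (w j)) * Polynomial.X := by
  unfold slantHom
  simp only [RingHom.coe_coe, aeval_X]

theorem unslant_slant (w : Fin (r + 1) → K) (hw : w (Fin.last r) = 1)
    (f : MvPolynomial (Fin (r + 1)) K) : unslant w (slantHom w f) = f := by
  suffices h : (unslant w).comp (slantHom w) = RingHom.id _ by
    exact congrArg (fun φ => φ f) h
  refine MvPolynomial.ringHom_ext (fun a => ?_) (fun j => ?_)
  · rw [RingHom.comp_apply, slantHom_C]
    simp [unslant]
  · rw [RingHom.comp_apply, slantHom_X]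
    refine Fin.lastCases ?_ (fun i => ?_) j
    · simp [unslant, hw]
    · simp [unslant]

theorem slant_unslant (w : Fin (r + 1) → K) (hw : w (Fin.last r) = 1)
    (g : Polynomial (MvPolynomial (Fin r) K)) : slantHom w (unslant w g) = g := by
  suffices h : (slantHom w).comp (unslant w) = RingHom.id _ by
    exact congrArg (fun φ => φ g) h
  refine Polynomial.ringHom_ext' ?_ ?_
  · refine MvPolynomial.ringHom_ext (fun a => ?_) (fun i => ?_)
    · simp [unslant, slantHom_C]
    · simp [unslant, slantHom_C, slantHom_X, hw]
  · simp [unslant, slantHom_X, hw]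

theorem squarefree_slant (w : Fin (r + 1) → K) (hw : w (Fin.last r) = 1)
    (f : MvPolynomial (Fin (r + 1)) K) (hf : Squarefree f) : Squarefree (slant w f) := by
  intro h hh
  have h1 : unslant w h * unslant w h ∣ f := by
    have := map_dvd (unslant w) hh
    rw [map_mul, ← slantHom_apply, unslant_slant w hw] at this
    exact this
  have h2 := (hf _ h1).map (slantHom w)
  rwa [slant_unslant w hw] at h2

theorem top_ne_zero (f : MvPolynomial (Fin (r + 1)) K) (hf : f ≠ 0) :
    homogeneousComponent f.totalDegree f ≠ 0 := by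
  classical
  obtain ⟨m, hm, hmd⟩ := Finset.exists_mem_eq_sup f.support
    (MvPolynomial.support_nonempty.mpr hf) (fun s => s.sum fun _ e => e)
  have h1 : f.totalDegree = m.degree := by
    rw [totalDegree, hmd]
    rw [Finsupp.degree_eq_sum, Finsupp.sum_fintype _ _ (fun _ => rfl)]
  intro h
  have := congrArg (coeff m) h
  rw [coeff_homogeneousComponent, if_pos h1.symm, coeff_zero] at this
  exact (mem_support_iff.mp hm) this

theorem eval_smul_homog {n : ℕ} (P : MvPolynomial (Fin n) K) (d : ℕ) (hP : P.IsHomogeneous d)
    (c : K) (x : Fin n → K) : eval (fun j => c * x j) P = c ^ d * eval x P := by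
  rw [eval_eq', eval_eq', Finset.mul_sum]
  refine Finset.sum_congr rfl (fun m hm => ?_)
  have h1 : ∑ j, m j = d := by
    have := hP (mem_support_iff.mp hm)
    rw [← this, Finsupp.weight_apply, Finsupp.sum_fintype _ _ (fun _ => by simp)]
    simp
  have h2 : ∏ i, (c * x i) ^ m i = c ^ d * ∏ i, x i ^ m i := by
    simp_rw [mul_pow]
    rw [Finset.prod_mul_distrib, Finset.prod_pow_eq_pow_sum, h1]
  rw [h2]
  ring

theorem exists_dir [Infinite K] (f : MvPolynomial (Fin (r + 1)) K) (hf : f ≠ 0) :
    ∃ w : Fin (r + 1) → K, w (Fin.last r) = 1 ∧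
      eval w (homogeneousComponent f.totalDegree f) ≠ 0 := by
  have h0 : homogeneousComponent f.totalDegree f * X (Fin.last r) ≠ 0 :=
    mul_ne_zero (top_ne_zero f hf) (X_ne_zero _)
  obtain ⟨c, hc⟩ : ∃ c : Fin (r + 1) → K,
      eval c (homogeneousComponent f.totalDegree f * X (Fin.last r)) ≠ 0 := by
    by_contra hcon
    push Not at hcon
    exact h0 (MvPolynomial.funext (fun x => by rw [hcon x, map_zero]))
  rw [map_mul, eval_X] at hc
  refine ⟨fun j => (c (Fin.last r))⁻¹ * c j, inv_mul_cancel₀ (right_ne_zero_of_mul hc), ?_⟩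
  rw [eval_smul_homog _ _ (homogeneousComponent_isHomogeneous _ _)]
  exact mul_ne_zero (pow_ne_zero _ (inv_ne_zero (right_ne_zero_of_mul hc)))
    (left_ne_zero_of_mul hc)

/-- the restriction of `f` to the line `q + T w`, with its formal resultant with the derivative -/
noncomputable def lineRes {n : ℕ} {A : Type} [CommRing A] [Algebra K A] (d : ℕ) (q w : Fin n → A)
    (f : MvPolynomial (Fin n) K) : A :=
  Polynomial.resultant (line q w f) (line q w f).derivative d (d - 1)

theorem lineRes_map {n : ℕ} {A B : Type} [CommRing A] [Algebra K A] [CommRing B] [Algebra K B]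
    (φ : A →ₐ[K] B) (d : ℕ) (q w : Fin n → A) (f : MvPolynomial (Fin n) K) :
    φ (lineRes d q w f) = lineRes d (fun j => φ (q j)) (fun j => φ (w j)) f := by
  unfold lineRes
  rw [← line_map, Polynomial.derivative_map, Polynomial.resultant_map_map]
  rfl

theorem exists_good [CharZero K] (f : MvPolynomial (Fin (r + 1)) K) (hf : Squarefree f) :
    ∃ p w : Fin (r + 1) → K, p (Fin.last r) = 0 ∧ w (Fin.last r) = 1 ∧
      eval w (homogeneousComponent f.totalDegree f) ≠ 0 ∧ lineRes f.totalDegree p w f ≠ 0 := by
  have hf0 : f ≠ 0 := hf.ne_zero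
  obtain ⟨w, hw1, hw⟩ := exists_dir f hf0
  set d := f.totalDegree with hd
  set c := eval w (homogeneousComponent d f) with hc
  have hlead := coeff_line (A := MvPolynomial (Fin r) K)
    (Fin.snoc (α := fun _ => MvPolynomial (Fin r) K) (fun i => X i) 0) (fun j => C (w j)) f
    (le_refl d)
  have hcoef : (slant w f).coeff d = C c := by
    have h1 := hlead.2
    have h2 : aeval (fun j => (C (w j) : MvPolynomial (Fin r) K)) (homogeneousComponent d f)
        = C (eval w (homogeneousComponent d f)) := by
      induction (homogeneousComponent d f) using MvPolynomial.induction_on with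
      | C a => simp
      | add p q hp hq => simp only [map_add, hp, hq]
      | mul_X p i hp => simp only [map_mul, hp, aeval_X, eval_X]
    rw [h2] at h1
    exact h1
  have hdeg : (slant w f).natDegree = d := by
    refine le_antisymm hlead.1 (Polynomial.le_natDegree_of_ne_zero ?_)
    rw [hcoef]
    exact (map_ne_zero_iff _ (C_injective _ _)).mpr hw
  have hsq := squarefree_slant w hw1 f hf
  -- normalise
  set G := Polynomial.C (C c⁻¹) * slant w f with hG
  have hGsq : Squarefree G := by
    intro h hh
    refine hsq h ?_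
    have h2 : slant w f = Polynomial.C (C c) * G := by
      rw [hG, ← mul_assoc, ← Polynomial.C_mul, ← C_mul, mul_inv_cancel₀ hw, C_1,
        Polynomial.C_1, one_mul]
    rw [h2]
    exact hh.mul_left _
  have hGc : G.coeff d = 1 := by
    rw [hG, Polynomial.coeff_C_mul, hcoef, ← C_mul, inv_mul_cancel₀ hw, C_1]
  have hGd : G.natDegree = d := by
    refine le_antisymm ?_ (Polynomial.le_natDegree_of_ne_zero (by rw [hGc]; exact one_ne_zero))
    exact (Polynomial.natDegree_C_mul_le _ _).trans hdeg.le
  have hGm : G.Monic := by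
    rw [Polynomial.Monic, Polynomial.leadingCoeff, hGd, hGc]
  have hres := resultant_ne_zero_of_squarefree G hGm hGsq
  rw [hGd] at hres
  have hres2 : Polynomial.resultant (slant w f) (slant w f).derivative d (d - 1) ≠ 0 := by
    intro h
    apply hres
    rw [hG, Polynomial.derivative_C_mul, Polynomial.resultant_C_mul_left,
      Polynomial.resultant_C_mul_right, h, mul_zero, mul_zero]
  obtain ⟨y, hy⟩ : ∃ y : Fin r → K,
      eval y (Polynomial.resultant (slant w f) (slant w f).derivative d (d - 1)) ≠ 0 := by
    by_contra hcon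
    push Not at hcon
    exact hres2 (MvPolynomial.funext (fun x => by rw [hcon x, map_zero]))
  refine ⟨Fin.snoc (α := fun _ => K) y 0, w, by simp, hw1, hw, ?_⟩
  have key := lineRes_map (aeval y : MvPolynomial (Fin r) K →ₐ[K] K) d
    (Fin.snoc (α := fun _ => MvPolynomial (Fin r) K) (fun i => X i) 0) (fun j => C (w j)) f
  have e1 : (fun j => (aeval y : MvPolynomial (Fin r) K →ₐ[K] K)
      ((Fin.snoc (α := fun _ => MvPolynomial (Fin r) K) (fun i => X i) 0 :
        Fin (r + 1) → MvPolynomial (Fin r) K) j)) = Fin.snoc (α := fun _ => K) y 0 := by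
    funext j
    refine Fin.lastCases ?_ (fun i => ?_) j
    · simp
    · simp
  have e2 : (fun j => (aeval y : MvPolynomial (Fin r) K →ₐ[K] K)
      (C (w j) : MvPolynomial (Fin r) K)) = w := by
    funext j
    simp
  rw [e1, e2] at key
  rw [← key]
  exact hy

end Pool.Agent.R834.Zar
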