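import Pool.Agent.R834.Zar.Defs

/-!
Restriction of a polynomial to a line, and existence of a line on which a squarefree polynomial is
separable.
-/

namespace Pool.Agent.R834.Zar

open MvPolynomial

section line

variable {n : ℕ} {K A : Type} [Field K] [CommRing A] [Algebra K A]

/-- `f(q + T w)` as a polynomial in `T`. -/
noncomputable def line (q w : Fin n → A) (f : MvPolynomial (Fin n) K) : Polynomial A :=
  aeval (fun j => Polynomial.C (q j) + Polynomial.C (w j) * Polynomial.X) f

theorem monomial_line (q w : Fin n → A) (m : Fin n →₀ ℕ) (c : K) :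
    line q w (monomial m c) = Polynomial.C (algebraMap K A c) *
      ∏ j, (Polynomial.C (q j) + Polynomial.C (w j) * Polynomial.X) ^ (m j) := by
  unfold line
  rw [aeval_monomial, Finsupp.prod_fintype _ _ (fun i => pow_zero _)]
  rfl

theorem coeff_prod_aux (q w : Fin n → A) (m : Fin n → ℕ) (s : Finset (Fin n)) :
    (∏ j ∈ s, (Polynomial.C (q j) + Polynomial.C (w j) * Polynomial.X) ^ (m j)).natDegree
      ≤ ∑ j ∈ s, m j ∧
    (∏ j ∈ s, (Polynomial.C (q j) + Polynomial.C (w j) * Polynomial.X) ^ (m j)).coeff
      (∑ j ∈ s, m j) = ∏ j ∈ s, w j ^ m j := by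
  classical
  have hlin : ∀ j, (Polynomial.C (q j) + Polynomial.C (w j) * Polynomial.X).natDegree ≤ 1 := by
    intro j
    rw [add_comm]
    exact Polynomial.natDegree_linear_le
  have hlc : ∀ j, (Polynomial.C (q j) + Polynomial.C (w j) * Polynomial.X).coeff 1 = w j := by
    intro j
    simp [Polynomial.coeff_C]
  have hpow : ∀ j, ((Polynomial.C (q j) + Polynomial.C (w j) * Polynomial.X) ^ (m j)).natDegree
      ≤ m j := by
    intro j
    refine Polynomial.natDegree_pow_le.trans ?_
    have := Nat.mul_le_mul_left (m j) (hlin j)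
    omega
  have hpowc : ∀ j, ((Polynomial.C (q j) + Polynomial.C (w j) * Polynomial.X) ^ (m j)).coeff (m j)
      = w j ^ m j := by
    intro j
    have := Polynomial.coeff_pow_of_natDegree_le (hlin j) (m := m j)
    rw [mul_one, hlc] at this
    exact this
  induction s using Finset.induction_on with
  | empty => simp
  | insert a s ha ih =>
    rw [Finset.prod_insert ha, Finset.sum_insert ha, Finset.prod_insert ha]
    refine ⟨Polynomial.natDegree_mul_le.trans (add_le_add (hpow a) ih.1), ?_⟩
    rw [Polynomial.coeff_mul_add_eq_of_natDegree_le (hpow a) ih.1, hpowc, ih.2]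

theorem coeff_line (q w : Fin n → A) (f : MvPolynomial (Fin n) K) {d : ℕ}
    (hd : f.totalDegree ≤ d) :
    (line q w f).natDegree ≤ d ∧ (line q w f).coeff d = aeval w (homogeneousComponent d f) := by
  classical
  have hsum : line q w f = ∑ m ∈ f.support, line q w (monomial m (coeff m f)) := by
    conv_lhs => rw [f.as_sum]
    unfold line
    rw [map_sum]
  have hdeg : ∀ m ∈ f.support, ∑ j, m j ≤ d := by
    intro m hm
    have := le_totalDegree hm
    rw [Finsupp.sum_fintype _ _ (fun _ => rfl)] at this
    exact this.trans hd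
  refine ⟨?_, ?_⟩
  · rw [hsum]
    refine Polynomial.natDegree_sum_le_of_forall_le _ _ (fun m hm => ?_)
    rw [monomial_line]
    refine (Polynomial.natDegree_C_mul_le _ _).trans ?_
    exact ((coeff_prod_aux q w m Finset.univ).1).trans (hdeg m hm)
  · rw [hsum, Polynomial.finsetSum_coeff, homogeneousComponent_apply, map_sum,
      Finset.sum_filter]
    refine Finset.sum_congr rfl (fun m hm => ?_)
    have h1 : m.degree = ∑ j, m j := by
      rw [Finsupp.degree_eq_sum]
    rw [monomial_line, Polynomial.coeff_C_mul]
    have hc := coeff_prod_aux q w m Finset.univ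
    split_ifs with h
    · rw [← h, h1, hc.2, aeval_monomial, Finsupp.prod_fintype _ _ (fun i => pow_zero _)]
    · rw [Polynomial.coeff_eq_zero_of_natDegree_lt, mul_zero]
      refine lt_of_le_of_lt hc.1 ?_
      have := hdeg m hm
      omega

theorem line_map {B : Type} [CommRing B] [Algebra K B] (φ : A →ₐ[K] B) (q w : Fin n → A)
    (f : MvPolynomial (Fin n) K) :
    (line q w f).map (φ : A →+* B) = line (fun j => φ (q j)) (fun j => φ (w j)) f := by
  unfold line
  induction f using MvPolynomial.induction_on with
  | C a => 
    simp only [aeval_C]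
    rw [Polynomial.algebraMap_apply, Polynomial.algebraMap_apply, Polynomial.map_C]
    simp
  | add p q hp hq => rw [map_add, Polynomial.map_add, hp, hq, map_add]
  | mul_X p i hp => 
    rw [map_mul, Polynomial.map_mul, hp, map_mul, aeval_X, aeval_X]
    simp

end line

end Pool.Agent.R834.Zar
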