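import Pool.Agent.R834.Zar.Defs
import Pool.Agent.R834.Zar.Cross

/-!
A family of four concurrent lines with varying cross ratio is not locally an analytic product.
-/

namespace Pool.Agent.R834.Zar

open Filter Topology

/-- the point `(0, 0, 0, t)` -/
def pt (t : ℂ) : Fin 4 → ℂ := ![0, 0, 0, t]

/-- the point `(a, b, 1)` -/
def yy (a b : ℂ) : Fin 3 → ℂ := ![a, b, 1]

/-- the family of four concurrent lines over `W1` -/
def fourLines (W1 : Set (Fin 4 → ℂ)) : Set ((Fin 4 → ℂ) × (Fin 3 → ℂ)) :=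
  {P | ∃ t a b, pt t ∈ W1 ∧ F4 t a b = 0 ∧ P = (pt t, yy a b)}

/-- the tangent direction -/
def dir (v w : ℂ) : (Fin 4 → ℂ) × ((Fin 4 → ℂ) × (Fin 3 → ℂ)) := (0, (0, ![v, w, 0]))

theorem dir_eq (v w : ℂ) : dir v w = v • dir 1 0 + w • dir 0 1 := by
  unfold dir
  refine Prod.ext ?_ (Prod.ext ?_ ?_)
  · simp
  · simp
  · funext i
    fin_cases i <;> simp

theorem dir_eq_zero {v w : ℂ} (h : dir v w = 0) : v = 0 ∧ w = 0 := by
  have h1 := congrArg (fun P => P.2.2) h
  exact ⟨by simpa [dir] using congrFun h1 0, by simpa [dir] using congrFun h1 1⟩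

theorem F4_smul (t c a b : ℂ) : F4 t (c * a) (c * b) = c ^ 4 * F4 t a b := by
  unfold F4; ring

theorem branch (t a0 b0 : ℂ) (h : F4 t a0 b0 = 0) (hne : a0 ≠ 0 ∨ b0 ≠ 0) (ht0 : t ≠ 0)
    (ht1 : t ≠ 1) : ∃ α β : ℂ, (α ≠ 0 ∨ β ≠ 0) ∧
      ∀ᶠ z : ℂ × ℂ in 𝓝 (a0, b0), F4 t z.1 z.2 = 0 → α * z.1 + β * z.2 = 0 := by
  have cont : ∀ f : ℂ × ℂ → ℂ, Continuous f → f (a0, b0) ≠ 0 → ∀ᶠ z in 𝓝 (a0, b0), f z ≠ 0 :=
    fun f hf h0 => hf.continuousAt.eventually_ne h0
  have c1 : Continuous (fun z : ℂ × ℂ => z.1) := continuous_fst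
  have c2 : Continuous (fun z : ℂ × ℂ => z.2) := continuous_snd
  have c3 : Continuous (fun z : ℂ × ℂ => z.1 - z.2) := c1.sub c2
  have c4 : Continuous (fun z : ℂ × ℂ => z.1 - t * z.2) := c1.sub (continuous_const.mul c2)
  unfold F4 at h ⊢
  rcases mul_eq_zero.mp h with h | h
  · rcases mul_eq_zero.mp h with h | h
    · rcases mul_eq_zero.mp h with h | h
      · subst h
        have hb : b0 ≠ 0 := hne.resolve_left (fun h => h rfl)
        refine ⟨1, 0, Or.inl one_ne_zero, ?_⟩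
        filter_upwards [cont _ c2 hb, cont _ c3 (by simpa using hb),
          cont _ c4 (by simpa using ⟨ht0, hb⟩)] with z h2 h3 h4 hz
        have := (mul_eq_zero.mp hz).resolve_right h4
        have := (mul_eq_zero.mp this).resolve_right h3
        have := (mul_eq_zero.mp this).resolve_right h2
        rw [this]; ring
      · subst h
        have ha : a0 ≠ 0 := hne.resolve_right (fun h => h rfl)
        refine ⟨0, 1, Or.inr one_ne_zero, ?_⟩
        filter_upwards [cont _ c1 ha, cont _ c3 (by simpa using ha),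
          cont _ c4 (by simpa using ha)] with z h2 h3 h4 hz
        have := (mul_eq_zero.mp hz).resolve_right h4
        have := (mul_eq_zero.mp this).resolve_right h3
        have := (mul_eq_zero.mp this).resolve_left h2
        rw [this]; ring
    · have hab : a0 = b0 := sub_eq_zero.mp h
      subst hab
      have ha : a0 ≠ 0 := by rcases hne with h | h <;> exact h
      refine ⟨1, -1, Or.inl one_ne_zero, ?_⟩
      filter_upwards [cont _ c1 ha, cont _ c2 ha, cont _ c4 (by
        have : a0 - t * a0 = (1 - t) * a0 := by ring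
        simp only
        rw [this]
        exact mul_ne_zero (sub_ne_zero.mpr (Ne.symm ht1)) ha)] with z h1 h2 h4 hz
      have := (mul_eq_zero.mp hz).resolve_right h4
      have := (mul_eq_zero.mp this).resolve_left (mul_ne_zero h1 h2)
      linear_combination this
  · have hab : a0 = t * b0 := sub_eq_zero.mp h
    have hb : b0 ≠ 0 := by
      intro hb
      rw [hb, mul_zero] at hab
      rcases hne with h | h
      · exact h hab
      · exact h hb
    have ha : a0 ≠ 0 := by rw [hab]; exact mul_ne_zero ht0 hb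
    refine ⟨1, -t, Or.inl one_ne_zero, ?_⟩
    filter_upwards [cont _ c1 ha, cont _ c2 hb, cont _ c3 (by
        have : a0 - b0 = (t - 1) * b0 := by rw [hab]; ring
        simp only
        rw [this]
        exact mul_ne_zero (sub_ne_zero.mpr ht1) hb)] with z h1 h2 h3 hz
    have := (mul_eq_zero.mp hz).resolve_left (mul_ne_zero (mul_ne_zero h1 h2) h3)
    linear_combination this

theorem fourLines_mem {W1 : Set (Fin 4 → ℂ)} {P : (Fin 4 → ℂ) × (Fin 3 → ℂ)}
    (hP : P ∈ fourLines W1) {t : ℂ} (ht : P.1 = pt t) :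
    P.2 2 = 1 ∧ F4 t (P.2 0) (P.2 1) = 0 := by
  obtain ⟨t', a, b, -, hF, rfl⟩ := hP
  have h1 : t' = t := by
    have := congrFun ht 3
    simpa [pt] using this
  subst h1
  simpa [yy] using hF

theorem relation_of_product {W1 : Set (Fin 4 → ℂ)} {t0 : ℂ} (h00 : t0 ≠ 0) (h01 : t0 ≠ 1)
    (hW : pt t0 ∈ W1) {N1 : Set (Fin 4 → ℂ)} {N2 N3 : Set ((Fin 4 → ℂ) × (Fin 3 → ℂ))}
    {φ : (Fin 4 → ℂ) × ((Fin 4 → ℂ) × (Fin 3 → ℂ)) → (Fin 4 → ℂ) × (Fin 3 → ℂ)}
    (hN2 : N2 ∈ 𝓝[{P ∈ fourLines W1 | P.1 = pt t0}] (pt t0, yy 0 0))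
    (hN3 : N3 ⊆ fourLines W1) (hφ : IsAnalyticIso (N1 ×ˢ N2) N3 φ)
    (hproj : ∀ p ∈ N1 ×ˢ N2, (φ p).1 = p.1) {t : ℂ} (ht : pt t ∈ N1) (ht0 : t ≠ 0)
    (ht1 : t ≠ 1) : I4 t0 ^ 3 * J4 t ^ 2 = I4 t ^ 3 * J4 t0 ^ 2 := by
  obtain ⟨hbij, han, ψ, hinv, hψ⟩ := hφ
  set O : (Fin 4 → ℂ) × (Fin 3 → ℂ) := (pt t0, yy 0 0) with hO
  have hOS : O ∈ {P ∈ fourLines W1 | P.1 = pt t0} := by
    refine ⟨⟨t0, 0, 0, hW, ?_, rfl⟩, rfl⟩
    unfold F4; ring
  have hO2 : O ∈ N2 := mem_of_mem_nhdsWithin hOS hN2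
  set p : (Fin 4 → ℂ) × ((Fin 4 → ℂ) × (Fin 3 → ℂ)) := (pt t, O) with hp
  have hpN : p ∈ N1 ×ˢ N2 := ⟨ht, hO2⟩
  obtain ⟨Φ, hΦ, hΦe⟩ := han p hpN
  have hP3 : φ p ∈ N3 := hbij.mapsTo hpN
  obtain ⟨Ψ, hΨ, hΨe⟩ := hψ (φ p) hP3
  set A := fderiv ℂ Φ p with hA
  set B := fderiv ℂ Ψ (φ p) with hB
  have hΦp : Φ p = φ p := (hΦe.eq_of_nhdsWithin hpN).symm
  -- the curves
  have hcurve : ∀ v w : ℂ, F4 t0 v w = 0 →
      ∀ᶠ s : ℂ in 𝓝 0, p + s • dir v w ∈ N1 ×ˢ N2 := by
    intro v w hvw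
    have h1 : Tendsto (fun s : ℂ => O + s • (dir v w).2) (𝓝 0) (𝓝 O) := by
      have : Continuous (fun s : ℂ => O + s • (dir v w).2) := by fun_prop
      have h2 := this.tendsto 0
      simpa using h2
    have h2 : ∀ s : ℂ, O + s • (dir v w).2 ∈ {P ∈ fourLines W1 | P.1 = pt t0} := by
      intro s
      refine ⟨⟨t0, s * v, s * w, hW, ?_, ?_⟩, ?_⟩
      · rw [F4_smul, hvw, mul_zero]
      · refine Prod.ext ?_ ?_
        · simp [hO, dir]
        · funext i
          fin_cases i <;> simp [hO, dir, yy]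
      · simp [hO, dir]
    have h3 : Tendsto (fun s : ℂ => O + s • (dir v w).2) (𝓝 0)
        (𝓝[{P ∈ fourLines W1 | P.1 = pt t0}] O) :=
      tendsto_nhdsWithin_iff.mpr ⟨h1, Eventually.of_forall h2⟩
    filter_upwards [h3.eventually hN2] with s hs
    refine ⟨?_, hs⟩
    simpa [hp, dir] using ht
  have hline : ∀ v w : ℂ, HasDerivAt (fun s : ℂ => p + s • dir v w) (dir v w) 0 := by
    intro v w
    have := ((hasDerivAt_id (0 : ℂ)).smul_const (dir v w)).const_add p
    simpa using this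
  have hlineT : ∀ v w : ℂ, Tendsto (fun s : ℂ => p + s • dir v w) (𝓝 0) (𝓝 p) := by
    intro v w
    have := (hline v w).continuousAt.tendsto
    simpa using this
  -- derivative of the image curves
  have hc : ∀ v w : ℂ, F4 t0 v w = 0 →
      HasDerivAt (fun s : ℂ => φ (p + s • dir v w)) (A (dir v w)) 0 := by
    intro v w hvw
    have h1 : HasDerivAt (fun s : ℂ => Φ (p + s • dir v w)) (A (dir v w)) 0 := by
      have h2 : HasFDerivAt Φ A ((fun s : ℂ => p + s • dir v w) 0) := by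
        have : (fun s : ℂ => p + s • dir v w) 0 = p := by simp
        rw [this]
        exact hΦ.differentiableAt.hasFDerivAt
      exact h2.comp_hasDerivAt 0 (hline v w)
    refine h1.congr_of_eventuallyEq ?_
    have h3 : Tendsto (fun s : ℂ => p + s • dir v w) (𝓝 0) (𝓝[N1 ×ˢ N2] p) :=
      tendsto_nhdsWithin_iff.mpr ⟨hlineT v w, hcurve v w hvw⟩
    exact h3.eventually hΦe
  have hBA : ∀ v w : ℂ, F4 t0 v w = 0 → B (A (dir v w)) = dir v w := by
    intro v w hvw
    have h1 : HasDerivAt (fun s : ℂ => Ψ (φ (p + s • dir v w))) (B (A (dir v w))) 0 := by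
      have h2 : HasFDerivAt Ψ B ((fun s : ℂ => φ (p + s • dir v w)) 0) := by
        have : (fun s : ℂ => φ (p + s • dir v w)) 0 = φ p := by simp
        rw [this]
        exact hΨ.differentiableAt.hasFDerivAt
      exact h2.comp_hasDerivAt 0 (hc v w hvw)
    have h3 : Tendsto (fun s : ℂ => φ (p + s • dir v w)) (𝓝 0) (𝓝[N3] (φ p)) := by
      refine tendsto_nhdsWithin_iff.mpr ⟨?_, ?_⟩
      · have := (hc v w hvw).continuousAt.tendsto
        simpa using this
      · filter_upwards [hcurve v w hvw] with s hs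
        exact hbij.mapsTo hs
    have h4 : (fun s : ℂ => Ψ (φ (p + s • dir v w))) =ᶠ[𝓝 0] (fun s : ℂ => p + s • dir v w) := by
      filter_upwards [h3.eventually hΨe, hcurve v w hvw] with s h5 h6
      rw [← h5]
      exact hinv.1 h6
    exact (h1.congr_of_eventuallyEq h4.symm).unique (hline v w)
  -- components
  have hcomp : ∀ v w : ℂ, F4 t0 v w = 0 → ∀ᶠ s : ℂ in 𝓝 0,
      (φ (p + s • dir v w)).1 = pt t ∧ (φ (p + s • dir v w)).2 2 = 1 ∧
      F4 t ((φ (p + s • dir v w)).2 0) ((φ (p + s • dir v w)).2 1) = 0 := by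
    intro v w hvw
    filter_upwards [hcurve v w hvw] with s hs
    have h1 : (φ (p + s • dir v w)).1 = pt t := by
      rw [hproj _ hs]
      simp [hp, dir]
    exact ⟨h1, fourLines_mem (hN3 (hbij.mapsTo hs)) h1⟩
  have hd1 : ∀ v w : ℂ, F4 t0 v w = 0 → (A (dir v w)).1 = 0 := by
    intro v w hvw
    have h1 : HasDerivAt (fun s : ℂ => (φ (p + s • dir v w)).1) (A (dir v w)).1 0 :=
      (hc v w hvw).fst
    have h2 : (fun s : ℂ => (φ (p + s • dir v w)).1) =ᶠ[𝓝 0] (fun _ => pt t) := by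
      filter_upwards [hcomp v w hvw] with s hs
      exact hs.1
    exact (h1.congr_of_eventuallyEq h2.symm).unique (hasDerivAt_const 0 (pt t))
  have hdi : ∀ v w : ℂ, F4 t0 v w = 0 → ∀ i, HasDerivAt (fun s : ℂ => (φ (p + s • dir v w)).2 i)
      ((A (dir v w)).2 i) 0 := by
    intro v w hvw
    exact hasDerivAt_pi.mp (hc v w hvw).snd
  have hd2 : ∀ v w : ℂ, F4 t0 v w = 0 → (A (dir v w)).2 2 = 0 := by
    intro v w hvw
    have h2 : (fun s : ℂ => (φ (p + s • dir v w)).2 2) =ᶠ[𝓝 0] (fun _ => (1 : ℂ)) := by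
      filter_upwards [hcomp v w hvw] with s hs
      exact hs.2.1
    exact ((hdi v w hvw 2).congr_of_eventuallyEq h2.symm).unique (hasDerivAt_const 0 (1 : ℂ))
  have e10 : F4 t0 1 0 = 0 := by unfold F4; ring
  have e01 : F4 t0 0 1 = 0 := by unfold F4; ring
  have e11 : F4 t0 1 1 = 0 := by unfold F4; ring
  have et1 : F4 t0 t0 1 = 0 := by unfold F4; ring
  set a := (A (dir 1 0)).2 0 with ha
  set c := (A (dir 1 0)).2 1 with hcc
  set b := (A (dir 0 1)).2 0 with hb
  set d := (A (dir 0 1)).2 1 with hdd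
  have hAdir : ∀ v w : ℂ, A (dir v w) = v • A (dir 1 0) + w • A (dir 0 1) := by
    intro v w
    rw [dir_eq v w, map_add, map_smul, map_smul]
  have hAv : ∀ v w : ℂ, A (dir v w) = (0, ![v * a + w * b, v * c + w * d, 0]) := by
    intro v w
    rw [hAdir]
    refine Prod.ext ?_ ?_
    · rw [Prod.fst_add, Prod.smul_fst, Prod.smul_fst, hd1 1 0 e10, hd1 0 1 e01]
      simp
    · funext i
      fin_cases i
      · simp [ha, hb]
      · simp [hcc, hdd]
      · have k1 := hd2 1 0 e10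
        have k2 := hd2 0 1 e01
        simp [k1, k2]
  have hinj : ∀ v w : ℂ, A (dir v w) = 0 → v = 0 ∧ w = 0 := by
    intro v w h
    have h1 : B (A (dir v w)) = dir v w := by
      rw [hAdir, map_add, map_smul, map_smul, hBA 1 0 e10, hBA 0 1 e01, ← dir_eq]
    rw [h, map_zero] at h1
    exact dir_eq_zero h1.symm
  have hdet : a * d - b * c ≠ 0 := by
    intro hdet
    have h1 : A (dir d (-c)) = 0 := by
      rw [hAv]
      refine Prod.ext rfl ?_
      funext i
      fin_cases i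
      · simp; linear_combination hdet
      · simp; ring
      · simp
    have h2 : A (dir b (-a)) = 0 := by
      rw [hAv]
      refine Prod.ext rfl ?_
      funext i
      fin_cases i
      · simp; ring
      · simp; linear_combination -hdet
      · simp
    obtain ⟨k1, k2⟩ := hinj _ _ h1
    obtain ⟨k3, k4⟩ := hinj _ _ h2
    have k2 : c = 0 := neg_eq_zero.mp k2
    have k4 : a = 0 := neg_eq_zero.mp k4
    have h3 : A (dir 1 0) = 0 := by
      rw [hAv, k4, k2]
      refine Prod.ext rfl ?_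
      funext i
      fin_cases i <;> simp
    exact one_ne_zero (hinj _ _ h3).1
  have hval : ∀ v w : ℂ, (A (dir v w)).2 0 = v * a + w * b ∧ (A (dir v w)).2 1 = v * c + w * d := by
    intro v w
    rw [hAv]
    simp
  have hP : (φ p).1 = pt t := by rw [hproj _ hpN]
  have hP2 := fourLines_mem (hN3 hP3) hP
  by_cases hne : (φ p).2 0 ≠ 0 ∨ (φ p).2 1 ≠ 0
  · exfalso
    obtain ⟨α, β, hαβ, hbr⟩ := branch t _ _ hP2.2 hne ht0 ht1
    have hlin : ∀ v w : ℂ, F4 t0 v w = 0 → α * (v * a + w * b) + β * (v * c + w * d) = 0 := by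
      intro v w hvw
      have h1 : HasDerivAt (fun s : ℂ => α * (φ (p + s • dir v w)).2 0 +
          β * (φ (p + s • dir v w)).2 1) (α * (A (dir v w)).2 0 + β * (A (dir v w)).2 1) 0 :=
        ((hdi v w hvw 0).const_mul α).add ((hdi v w hvw 1).const_mul β)
      have h2 : Tendsto (fun s : ℂ => ((φ (p + s • dir v w)).2 0, (φ (p + s • dir v w)).2 1)) (𝓝 0)
          (𝓝 ((φ p).2 0, (φ p).2 1)) := by
        have k1 := (hdi v w hvw 0).continuousAt.tendsto
        have k2 := (hdi v w hvw 1).continuousAt.tendsto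
        have := k1.prodMk_nhds k2
        simpa using this
      have h3 : (fun s : ℂ => α * (φ (p + s • dir v w)).2 0 +
          β * (φ (p + s • dir v w)).2 1) =ᶠ[𝓝 0] (fun _ => (0 : ℂ)) := by
        filter_upwards [h2.eventually hbr, hcomp v w hvw] with s h4 h5
        exact h4 h5.2.2
      have h6 := (h1.congr_of_eventuallyEq h3.symm).unique (hasDerivAt_const 0 (0 : ℂ))
      rw [(hval v w).1, (hval v w).2] at h6
      exact h6
    have l1 := hlin 1 0 e10
    have l2 := hlin 0 1 e01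
    have z1 : α * (a * d - b * c) = 0 := by linear_combination d * l1 - c * l2
    have z2 : β * (a * d - b * c) = 0 := by linear_combination a * l2 - b * l1
    rcases hαβ with h | h
    · exact hdet ((mul_eq_zero.mp z1).resolve_left h)
    · exact hdet ((mul_eq_zero.mp z2).resolve_left h)
  · push Not at hne
    have hF : ∀ v w : ℂ, F4 t0 v w = 0 → F4 t (v * a + w * b) (v * c + w * d) = 0 := by
      intro v w hvw
      have h0 := (hdi v w hvw 0).tendsto_slope
      have h1 := (hdi v w hvw 1).tendsto_slope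
      rw [(hval v w).1] at h0
      rw [(hval v w).2] at h1
      have hFc : Continuous (fun z : ℂ × ℂ => F4 t z.1 z.2) := by
        unfold F4; fun_prop
      have h2 := (hFc.tendsto (v * a + w * b, v * c + w * d)).comp (h0.prodMk_nhds h1)
      have h3 : (fun s : ℂ => F4 t (slope (fun s : ℂ => (φ (p + s • dir v w)).2 0) 0 s)
          (slope (fun s : ℂ => (φ (p + s • dir v w)).2 1) 0 s)) =ᶠ[𝓝[≠] 0] (fun _ => (0 : ℂ)) := by
        filter_upwards [(hcomp v w hvw).filter_mono nhdsWithin_le_nhds] with s hs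
        rw [slope_def_module, slope_def_module]
        simp only [zero_smul, add_zero, hne.1, hne.2, sub_zero, smul_eq_mul]
        rw [F4_smul, hs.2.2, mul_zero]
      have h4 : Tendsto (fun s : ℂ => F4 t (slope (fun s : ℂ => (φ (p + s • dir v w)).2 0) 0 s)
          (slope (fun s : ℂ => (φ (p + s • dir v w)).2 1) 0 s)) (𝓝[≠] 0)
          (𝓝 (F4 t (v * a + w * b) (v * c + w * d))) := h2
      exact tendsto_nhds_unique (h4.congr' h3) tendsto_const_nhds |>.symm ▸ rfl
    have f10 := hF 1 0 e10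
    have f01 := hF 0 1 e01
    have f11 := hF 1 1 e11
    have ft1 := hF t0 1 et1
    refine invariant_relation t t0 a b c d h00 h01 hdet ?_ ?_ ?_ ?_
    · simpa using f10
    · simpa using f01
    · simpa using f11
    · have : F4 t (a * t0 + b) (c * t0 + d) = F4 t (t0 * a + 1 * b) (t0 * c + 1 * d) := by
        congr 1 <;> ring
      rw [this]; exact ft1

end Pool.Agent.R834.Zar
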