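import Pool.Agent.R834.Zar.Finite
import Pool.Agent.R834.Zar.NoProd

/-!
The example `x y (x - y) (x - t y) + z^5 = 0`.
-/

namespace Pool.Agent.R834.Zar

open MvPolynomial Filter Topology

/-- the hypersurface `V` -/
noncomputable def fV : MvPolynomial (Fin 4) ℂ :=
  X 0 * X 1 * (X 0 - X 1) * (X 0 - X 3 * X 1) + X 2 ^ 5

/-- generators of the ideal of `W` -/
noncomputable def gW : Fin 3 → MvPolynomial (Fin 4) ℂ := ![X 0, X 1, X 2]

theorem eval_fV (x : Fin 4 → ℂ) : eval x fV = F4 (x 3) (x 0) (x 1) + x 2 ^ 5 := by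
  simp [fV, F4]

theorem pderiv_fV : pderiv 2 fV = 5 * X 2 ^ 4 := by
  unfold fV
  simp only [map_add, Derivation.leibniz, Derivation.leibniz_pow, map_sub, pderiv_X, smul_eq_mul]
  simp

theorem squarefree_fV : Squarefree fV := by
  intro q hq
  obtain ⟨c, hc⟩ := hq
  have h1 : q ∣ 5 * X 2 ^ 4 := by
    rw [← pderiv_fV, hc]
    simp only [Derivation.leibniz, smul_eq_mul]
    exact ⟨q * pderiv 2 c + c * (pderiv 2 q + pderiv 2 q), by ring⟩
  have h2 : q ∣ X 2 ^ 4 := by
    have : (X 2 ^ 4 : MvPolynomial (Fin 4) ℂ) = C (1 / 5) * (5 * X 2 ^ 4) := by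
      have h5 : (C (1 / 5) * 5 : MvPolynomial (Fin 4) ℂ) = 1 := by
        have : (5 : MvPolynomial (Fin 4) ℂ) = C 5 := (map_ofNat C 5).symm
        rw [this, ← C_mul]
        norm_num
      rw [← mul_assoc, h5, one_mul]
    rw [this]
    exact h1.mul_left _
  have hX : Prime (X 2 : MvPolynomial (Fin 4) ℂ) := X_prime
  obtain ⟨i, -, hi⟩ := (dvd_prime_pow hX 4).mp h2
  rcases Nat.eq_zero_or_pos i with h0 | h0
  · rw [h0, pow_zero] at hi
    exact associated_one_iff_isUnit.mp hi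
  · exfalso
    have h3 : X 2 ∣ q := (dvd_pow_self _ (Nat.pos_iff_ne_zero.mp h0)).trans hi.symm.dvd
    have h4 : X 2 ∣ fV := by
      rw [hc]
      exact (h3.mul_right q).mul_right c
    obtain ⟨e, he⟩ := h4
    have h5 := congrArg (eval ![1, 2, 0, 0]) he
    rw [eval_fV, map_mul, eval_X] at h5
    simp [F4] at h5
    norm_num at h5

theorem zeros_gW : zeros gW = lineSet (0 : Fin 4 → ℂ) (Pi.single 3 1) := by
  ext x
  unfold zeros lineSet
  simp only [Set.mem_ofPred_eq, Set.mem_range, Fin.forall_fin_succ, gW]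
  constructor
  · rintro ⟨h0, h1, h2, -⟩
    refine ⟨x 3, ?_⟩
    funext j
    simp at h0 h1 h2
    fin_cases j
    · simp [h0]
    · simp [h1]
    · simp [h2]
    · simp
  · rintro ⟨t, rfl⟩
    simp

theorem isPrime_gW : (Ideal.span (Set.range gW)).IsPrime := by
  -- the kernel of the restriction to `W`
  let φ : MvPolynomial (Fin 4) ℂ →ₐ[ℂ] Polynomial ℂ := aeval ![0, 0, 0, Polynomial.X]
  let ψ : Polynomial ℂ →ₐ[ℂ] MvPolynomial (Fin 4) ℂ := Polynomial.aeval (X 3)
  have h0 : (X 0 : MvPolynomial (Fin 4) ℂ) ∈ Ideal.span (Set.range gW) :=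
    Ideal.subset_span ⟨0, rfl⟩
  have h1 : (X 1 : MvPolynomial (Fin 4) ℂ) ∈ Ideal.span (Set.range gW) :=
    Ideal.subset_span ⟨1, rfl⟩
  have h2 : (X 2 : MvPolynomial (Fin 4) ℂ) ∈ Ideal.span (Set.range gW) :=
    Ideal.subset_span ⟨2, rfl⟩
  have hcomp : (Ideal.Quotient.mkₐ ℂ (Ideal.span (Set.range gW))).comp (ψ.comp φ) =
      Ideal.Quotient.mkₐ ℂ (Ideal.span (Set.range gW)) := by
    refine MvPolynomial.algHom_ext (fun i => ?_)
    fin_cases i
    · simp [φ, ψ]
      exact (Ideal.Quotient.eq_zero_iff_mem.mpr h0).symm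
    · simp [φ, ψ]
      exact (Ideal.Quotient.eq_zero_iff_mem.mpr h1).symm
    · simp [φ, ψ]
      exact (Ideal.Quotient.eq_zero_iff_mem.mpr h2).symm
    · simp [φ, ψ]
  have hker : Ideal.span (Set.range gW) = RingHom.ker (φ : MvPolynomial (Fin 4) ℂ →+* Polynomial ℂ) := by
    apply le_antisymm
    · rw [Ideal.span_le]
      rintro x ⟨j, rfl⟩
      rw [SetLike.mem_coe, RingHom.mem_ker]
      fin_cases j <;> simp [gW, φ]
    · intro g hg
      rw [RingHom.mem_ker] at hg
      have := congrArg (fun F => F g) hcomp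
      simp only [AlgHom.comp_apply] at this
      have hg' : φ g = 0 := hg
      rw [hg', map_zero, map_zero] at this
      exact Ideal.Quotient.eq_zero_iff_mem.mp this.symm
  rw [hker]
  exact RingHom.ker_isPrime _

theorem fV_mem : fV ∈ Ideal.span (Set.range gW) := by
  have h0 : (X 0 : MvPolynomial (Fin 4) ℂ) ∈ Ideal.span (Set.range gW) :=
    Ideal.subset_span ⟨0, rfl⟩
  have h2 : (X 2 : MvPolynomial (Fin 4) ℂ) ∈ Ideal.span (Set.range gW) :=
    Ideal.subset_span ⟨2, rfl⟩
  have : fV = X 1 * (X 0 - X 1) * (X 0 - X 3 * X 1) * X 0 + X 2 ^ 4 * X 2 := by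
    unfold fV; ring
  rw [this]
  exact add_mem (Ideal.mul_mem_left _ _ h0) (Ideal.mul_mem_left _ _ h2)

/-- explicit equations of the chart -/
theorem mem_blowup (P : (Fin 4 → ℂ) × (Fin 3 → ℂ)) : P ∈ blowup fV gW 2 ↔
    P.1 0 = P.2 0 * P.1 2 ∧ P.1 1 = P.2 1 * P.1 2 ∧ P.2 2 = 1 ∧
    F4 (P.1 3) (P.2 0) (P.2 1) + P.1 2 = 0 := by
  constructor
  · intro h
    refine ⟨?_, ?_, ?_, ?_⟩
    · have := h (X (Sum.inl 0) - X (Sum.inr 0) * X (Sum.inl 2)) (by
        intro x _ hx
        simp [gW] at hx ⊢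
        field_simp
        ring)
      simp at this
      exact sub_eq_zero.mp this
    · have := h (X (Sum.inl 1) - X (Sum.inr 1) * X (Sum.inl 2)) (by
        intro x _ hx
        simp [gW] at hx ⊢
        field_simp
        ring)
      simp at this
      exact sub_eq_zero.mp this
    · have := h (X (Sum.inr 2) - 1) (by
        intro x _ hx
        simp [gW] at hx ⊢
        field_simp
        ring)
      simp at this
      exact sub_eq_zero.mp this
    · have := h (X (Sum.inr 0) * X (Sum.inr 1) * (X (Sum.inr 0) - X (Sum.inr 1)) *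
        (X (Sum.inr 0) - X (Sum.inl 3) * X (Sum.inr 1)) + X (Sum.inl 2)) (by
        intro x hf hx
        rw [eval_fV] at hf
        simp [gW, F4] at hx hf ⊢
        field_simp
        linear_combination hf)
      simpa [F4] using this
  · rintro ⟨h0, h1, h2, h3⟩ G hG
    -- pull back to the parameter space
    let F3 : MvPolynomial (Fin 3) ℂ := X 0 * X 1 * (X 0 - X 1) * (X 0 - X 2 * X 1)
    let G' : MvPolynomial (Fin 3) ℂ :=
      aeval (Sum.elim ![- F3 * X 0, - F3 * X 1, - F3, X 2] ![X 0, X 1, 1]) G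
    have hev : ∀ z : Fin 3 → ℂ, eval z G' = eval (Sum.elim
        ![- F4 (z 2) (z 0) (z 1) * z 0, - F4 (z 2) (z 0) (z 1) * z 1, - F4 (z 2) (z 0) (z 1), z 2]
        ![z 0, z 1, 1]) G := by
      intro z
      have e : (eval z : MvPolynomial (Fin 3) ℂ →+* ℂ) = (aeval z : MvPolynomial (Fin 3) ℂ →ₐ[ℂ] ℂ) := by
        ext <;> simp
      have : eval z G' = (aeval z : MvPolynomial (Fin 3) ℂ →ₐ[ℂ] ℂ) G' := by
        rw [e]; rfl
      rw [this]
      simp only [G']
      rw [← AlgHom.comp_apply, comp_aeval]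
      have e2 : eval (Sum.elim
        ![- F4 (z 2) (z 0) (z 1) * z 0, - F4 (z 2) (z 0) (z 1) * z 1, - F4 (z 2) (z 0) (z 1), z 2]
        ![z 0, z 1, 1]) G = aeval (Sum.elim
        ![- F4 (z 2) (z 0) (z 1) * z 0, - F4 (z 2) (z 0) (z 1) * z 1, - F4 (z 2) (z 0) (z 1), z 2]
        ![z 0, z 1, 1]) G := by
        simp
      rw [e2]
      congr 1
      congr 1
      funext i
      rcases i with i | i <;> fin_cases i <;> simp [F3, F4]
    have hF3 : F3 ≠ 0 := by
      intro h
      have := congrArg (eval ![1, 2, 0]) h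
      simp [F3] at this
      norm_num at this
    have hprod : G' * F3 = 0 := by
      refine MvPolynomial.funext (fun z => ?_)
      rw [map_mul, map_zero]
      by_cases hz : eval z F3 = 0
      · rw [hz, mul_zero]
      · have hz' : F4 (z 2) (z 0) (z 1) ≠ 0 := by
          intro h; apply hz
          simpa [F3, F4] using h
        have h5 := hG ![- F4 (z 2) (z 0) (z 1) * z 0, - F4 (z 2) (z 0) (z 1) * z 1,
          - F4 (z 2) (z 0) (z 1), z 2] (by
            rw [eval_fV]
            simp [F4]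
            ring) (by simpa [gW] using hz')
        have h6 : (fun j => eval ![- F4 (z 2) (z 0) (z 1) * z 0, - F4 (z 2) (z 0) (z 1) * z 1,
          - F4 (z 2) (z 0) (z 1), z 2] (gW j) / eval ![- F4 (z 2) (z 0) (z 1) * z 0,
            - F4 (z 2) (z 0) (z 1) * z 1, - F4 (z 2) (z 0) (z 1), z 2] (gW 2)) =
            ![z 0, z 1, 1] := by
          funext j
          fin_cases j
          · simp [gW]
            field_simp
          · simp [gW]
            field_simp
          · simp [gW, hz']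
        rw [h6] at h5
        rw [hev, h5, zero_mul]
    have hG' : G' = 0 := (mul_eq_zero.mp hprod).resolve_right hF3
    have := hev ![P.2 0, P.2 1, P.1 3]
    rw [hG', map_zero] at this
    rw [this]
    have e1 : P.1 = ![- F4 (P.1 3) (P.2 0) (P.2 1) * P.2 0, - F4 (P.1 3) (P.2 0) (P.2 1) * P.2 1,
        - F4 (P.1 3) (P.2 0) (P.2 1), P.1 3] := by
      have h4 : P.1 2 = - F4 (P.1 3) (P.2 0) (P.2 1) := by linear_combination h3
      funext i
      fin_cases i
      · simp only [Fin.zero_eta, Matrix.cons_val_zero]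
        rw [h0, h4]; ring
      · simp only [Fin.mk_one, Matrix.cons_val_one, Matrix.cons_val_zero]
        rw [h1, h4]; ring
      · simp only [Fin.reduceFinMk, Matrix.cons_val]
        rw [h4]
      · simp
    have e2 : P.2 = ![P.2 0, P.2 1, 1] := by
      funext i
      fin_cases i
      · simp
      · simp
      · simp [h2]
    congr 2
    simp only [Matrix.cons_val]
    rw [← e1, ← e2]

/-- all points of the chart are simple points -/
theorem simple_blowup (P : (Fin 4 → ℂ) × (Fin 3 → ℂ)) (hP : P ∈ blowup fV gW 2) :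
    IsSimpleOn 4 (blowup fV gW 2) P := by
  refine ⟨hP, ![X (Sum.inl 0) - X (Sum.inr 0) * X (Sum.inl 2),
    X (Sum.inl 1) - X (Sum.inr 1) * X (Sum.inl 2), X (Sum.inr 2) - 1,
    X (Sum.inr 0) * X (Sum.inr 1) * (X (Sum.inr 0) - X (Sum.inr 1)) *
        (X (Sum.inr 0) - X (Sum.inl 3) * X (Sum.inr 1)) + X (Sum.inl 2)], ?_, ?_⟩
  · intro k R hR
    rw [mem_blowup] at hR
    obtain ⟨h0, h1, h2, h3⟩ := hR
    fin_cases k
    · simp [h0]
    · simp [h1]
    · simp [h2]
    · simpa [F4] using h3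
  · rw [Fintype.linearIndependent_iff]
    intro c hc
    have h0 := congrFun hc (Sum.inl 0)
    have h1 := congrFun hc (Sum.inl 1)
    have h2 := congrFun hc (Sum.inl 2)
    have h3 := congrFun hc (Sum.inr 2)
    simp [Fin.sum_univ_four, Derivation.leibniz, pderiv_X] at h0 h1 h2 h3
    rw [h0, h1] at h2
    simp at h2
    intro i
    fin_cases i
    · exact h0
    · exact h1
    · exact h3
    · exact h2

theorem pt_mem_zeros (t : ℂ) : pt t = (fun j => (0 : Fin 4 → ℂ) j +
    (Pi.single 3 1 : Fin 4 → ℂ) j * t) := by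
  funext j
  fin_cases j <;> simp [pt]

theorem zeros_eq : zeros gW = Set.range pt := by
  rw [zeros_gW]
  unfold lineSet
  congr 1
  funext t
  exact (pt_mem_zeros t).symm

/-- `V` is equisingular along `W` at all but finitely many points of `W` -/
theorem finite_not_eqs : {t : ℂ | pt t ∉ Eqs fV (zeros gW)}.Finite := by
  have h := finite_bad 3 ℂ fV squarefree_fV (0 : Fin 4 → ℂ) (Pi.single 3 1) (by
    intro h
    have := congrFun h 3
    simp at this) (by
    rw [← zeros_gW, zeros_eq]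
    rintro a ⟨t, rfl⟩
    rw [eval_fV]
    simp [pt, F4])
  refine h.subset ?_
  intro t ht
  simp only [Set.mem_ofPred_eq] at ht ⊢
  intro hE
  apply ht
  refine ⟨?_, ?_⟩
  · rw [zeros_eq]; exact ⟨t, rfl⟩
  · rw [zeros_gW, pt_mem_zeros]
    exact hE

theorem stratum_eq (W1 : Set (Fin 4 → ℂ)) (hW1 : W1 ⊆ zeros gW) :
    {P | IsSimpleOn 4 (blowup fV gW 2) P ∧ P.1 ∈ W1} = fourLines W1 := by
  ext P
  constructor
  · rintro ⟨hP, hW⟩
    have hP1 := (mem_blowup P).mp hP.1
    have hW' := hW1 hW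
    rw [zeros_eq] at hW'
    obtain ⟨t, ht⟩ := hW'
    obtain ⟨h0, h1, h2, h3⟩ := hP1
    refine ⟨t, P.2 0, P.2 1, by rw [ht]; exact hW, ?_, ?_⟩
    · rw [← ht] at h3
      simpa [pt] using h3
    · refine Prod.ext ht.symm ?_
      funext i
      fin_cases i
      · simp [yy]
      · simp [yy]
      · simp [yy, h2]
  · rintro ⟨t, a, b, ht, hF, rfl⟩
    refine ⟨simple_blowup _ ((mem_blowup _).mpr ?_), ht⟩
    simp [pt, yy, hF]

theorem main : ∃ (f : MvPolynomial (Fin 4) ℂ) (h : Fin 3 → MvPolynomial (Fin 4) ℂ)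
    (Qs : (Fin 4 → ℂ) × (Fin 3 → ℂ)),
    Squarefree f ∧ (Ideal.span (Set.range h)).IsPrime ∧ f ∈ Ideal.span (Set.range h) ∧
    Qs.1 ∈ Eqs f (zeros h) ∧ IsSimpleOn 4 (blowup f h 2) Qs ∧
    ¬ LocalProduct (Eqs f (zeros h))
      {P | IsSimpleOn 4 (blowup f h 2) P ∧ P.1 ∈ Eqs f (zeros h)} Qs := by
  classical
  -- choose a good parameter
  have hfin := (finite_not_eqs.union (Set.finite_singleton (0 : ℂ))).union
    (Set.finite_singleton (1 : ℂ))
  obtain ⟨t0, ht0⟩ := hfin.exists_notMem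
  simp only [Set.mem_union, Set.mem_ofPred_eq, Set.mem_singleton_iff, not_or, not_not] at ht0
  obtain ⟨⟨hE, h0⟩, h1⟩ := ht0
  refine ⟨fV, gW, (pt t0, yy 0 0), squarefree_fV, isPrime_gW, fV_mem, hE,
    simple_blowup _ ((mem_blowup _).mpr (by simp [pt, yy, F4])), ?_⟩
  rw [stratum_eq _ (fun x hx => hx.1)]
  rintro ⟨N1, N2, N3, φ, hN1, hN1', hN2, hN2', hN3, hN3', hφ, hproj⟩
  -- infinitely many parameters in `N1`
  have hopen : {t : ℂ | pt t ∈ N1} ∪ {t : ℂ | pt t ∉ Eqs fV (zeros gW)} ∈ 𝓝 t0 := by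
    obtain ⟨U, hU, hUo, hUt⟩ := mem_nhds_iff.mp (mem_nhdsWithin_iff_exists_mem_nhds_inter.mp hN1').choose_spec.1
    have hsub := (mem_nhdsWithin_iff_exists_mem_nhds_inter.mp hN1').choose_spec.2
    have hcont : Continuous pt := by
      refine continuous_pi (fun i => ?_)
      fin_cases i <;> simp [pt] <;> fun_prop
    have : pt ⁻¹' U ∈ 𝓝 t0 := (hUo.preimage hcont).mem_nhds hUt
    filter_upwards [this] with t ht
    by_cases hE : pt t ∈ Eqs fV (zeros gW)
    · left
      exact hsub ⟨hU ht, hE⟩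
    · right
      exact hE
  have hsub : {t : ℂ | pt t ∈ N1} ∪ {t : ℂ | pt t ∉ Eqs fV (zeros gW)} ⊆
      {t : ℂ | I4 t0 ^ 3 * J4 t ^ 2 = I4 t ^ 3 * J4 t0 ^ 2} ∪ ({0} ∪ {1}) ∪
      {t : ℂ | pt t ∉ Eqs fV (zeros gW)} := by
    rintro t (ht | ht)
    · left
      by_cases k0 : t = 0
      · right; left; exact k0
      by_cases k1 : t = 1
      · right; right; exact k1
      left
      exact relation_of_product h0 h1 hE hN2' hN3 hφ hproj ht k0 k1
    · right
      exact ht
  have hfin2 : ({t : ℂ | I4 t0 ^ 3 * J4 t ^ 2 = I4 t ^ 3 * J4 t0 ^ 2} ∪ ({0} ∪ {1}) ∪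
      {t : ℂ | pt t ∉ Eqs fV (zeros gW)}).Finite :=
    ((finite_same_invariant t0 h0 h1).union
      ((Set.finite_singleton _).union (Set.finite_singleton _))).union finite_not_eqs
  exact (infinite_of_mem_nhds t0 hopen) (hfin2.subset hsub)

end Pool.Agent.R834.Zar
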