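import Pool.Agent.R834.Zar.Disc

/-!
Genericity of the generic linear projection.
-/

namespace Pool.Agent.R834.Zar

open MvPolynomial

theorem frac_spec {m : ℕ} {K R L : Type} [Field K] [CommRing R] [Algebra K R] [Field L]
    [Algebra K L] [Algebra R L] [IsScalarTower K R L] (s : R →ₐ[K] K) (a : Fin m → R) (d : R)
    (hd : s d ≠ 0) (hdL : algebraMap R L d ≠ 0) (P : MvPolynomial (Fin m) K) :
    ∃ (N : ℕ) (H : R),
      algebraMap R L H = (algebraMap R L d) ^ N *
        aeval (fun j => algebraMap R L (a j) / algebraMap R L d) P ∧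
      s H = (s d) ^ N * eval (fun j => s (a j) / s d) P := by
  induction P using MvPolynomial.induction_on with
  | C c =>
    refine ⟨0, algebraMap K R c, ?_, ?_⟩
    · rw [pow_zero, one_mul, aeval_C, ← IsScalarTower.algebraMap_apply]
    · simp
  | add p q hp hq =>
    obtain ⟨N1, H1, h1, h1'⟩ := hp
    obtain ⟨N2, H2, h2, h2'⟩ := hq
    refine ⟨N1 + N2, d ^ N2 * H1 + d ^ N1 * H2, ?_, ?_⟩
    · rw [map_add, map_mul, map_mul, map_pow, map_pow, h1, h2, map_add]
      ring
    · rw [map_add, map_mul, map_mul, map_pow, map_pow, h1', h2', map_add]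
      ring
  | mul_X p i hp =>
    obtain ⟨N, H, h, h'⟩ := hp
    refine ⟨N + 1, H * a i, ?_, ?_⟩
    · rw [map_mul, h, map_mul, aeval_X]
      field_simp
      ring
    · rw [map_mul, h', map_mul, eval_X]
      field_simp
      ring

section

variable (K : Type) [Field K] (r : ℕ)

instance instTowerRat : IsScalarTower K (MvPolynomial (Fin r × Fin (r + 1)) K) (RatField K r) :=
  (inferInstance : IsScalarTower K (MvPolynomial (Fin r × Fin (r + 1)) K)
    (FractionRing (MvPolynomial (Fin r × Fin (r + 1)) K)))

instance instFracRat : IsFractionRing (MvPolynomial (Fin r × Fin (r + 1)) K) (RatField K r) :=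
  (inferInstance : IsFractionRing (MvPolynomial (Fin r × Fin (r + 1)) K)
    (FractionRing (MvPolynomial (Fin r × Fin (r + 1)) K)))

instance instTowerRatGen : IsScalarTower K (RatField K r) (GenField K r) :=
  (inferInstance : IsScalarTower K (RatField K r) (AlgebraicClosure (RatField K r)))

noncomputable instance instAlgebraPolyGen :
    Algebra (MvPolynomial (Fin r × Fin (r + 1)) K) (GenField K r) :=
  ((algebraMap (RatField K r) (GenField K r)).comp
    (algebraMap (MvPolynomial (Fin r × Fin (r + 1)) K) (RatField K r))).toAlgebra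

theorem algebraMap_polyGen : algebraMap (MvPolynomial (Fin r × Fin (r + 1)) K) (GenField K r) =
    (algebraMap (RatField K r) (GenField K r)).comp
    (algebraMap (MvPolynomial (Fin r × Fin (r + 1)) K) (RatField K r)) := rfl

instance instTowerPolyGen : IsScalarTower K (MvPolynomial (Fin r × Fin (r + 1)) K)
    (GenField K r) := by
  refine IsScalarTower.of_algebraMap_eq' ?_
  rw [algebraMap_polyGen, RingHom.comp_assoc, ← IsScalarTower.algebraMap_eq,
    ← IsScalarTower.algebraMap_eq]

/-- the matrix of the coordinate change over `K[u]` -/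
noncomputable def matR : Matrix (Fin (r + 1)) (Fin (r + 1)) (MvPolynomial (Fin r × Fin (r + 1)) K) :=
  Matrix.of (Fin.snoc (α := fun _ => Fin (r + 1) → MvPolynomial (Fin r × Fin (r + 1)) K)
    (fun i j => X (i, j)) (Pi.single (Fin.last r) 1))

theorem coordMat_eq : coordMat (genU K r) =
    (matR K r).map (algebraMap (MvPolynomial (Fin r × Fin (r + 1)) K) (GenField K r)) := by
  ext i j
  rw [Matrix.map_apply]
  unfold coordMat matR
  simp only [Matrix.of_apply]
  refine Fin.lastCases ?_ (fun i => ?_) i
  · simp only [Fin.snoc_last]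
    by_cases h : j = Fin.last r
    · subst h; simp
    · rw [Pi.single_eq_of_ne h, Pi.single_eq_of_ne h, map_zero]
  · simp only [Fin.snoc_castSucc]
    rfl

variable {K r}

/-- the special values of `u` for which the kernel of the projection is spanned by `w` -/
noncomputable def spec (w : Fin (r + 1) → K) : MvPolynomial (Fin r × Fin (r + 1)) K →ₐ[K] K :=
  aeval (fun p => Fin.lastCases (motive := fun _ => K) (-w (Fin.castSucc p.1))
    (fun j => if j = p.1 then 1 else 0) p.2)

theorem spec_mat_last (w : Fin (r + 1) → K) (x : Fin (r + 1) → K) :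
    ((matR K r).map (spec w)).mulVec x (Fin.last r) = x (Fin.last r) := by
  rw [Matrix.mulVec, dotProduct, Fin.sum_univ_castSucc]
  simp [matR, Matrix.map_apply]

theorem spec_mat_castSucc (w : Fin (r + 1) → K) (x : Fin (r + 1) → K) (i : Fin r) :
    ((matR K r).map (spec w)).mulVec x (Fin.castSucc i) =
      x (Fin.castSucc i) - w (Fin.castSucc i) * x (Fin.last r) := by
  rw [Matrix.mulVec, dotProduct, Fin.sum_univ_castSucc]
  simp only [matR, Matrix.map_apply, Matrix.of_apply, Fin.snoc_castSucc, spec, aeval_X,
    Fin.lastCases_castSucc, Fin.lastCases_last]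
  simp [ite_mul]
  ring

theorem spec_det_ne_zero (w : Fin (r + 1) → K) : spec w (matR K r).det ≠ 0 := by
  have h0 : spec w (matR K r).det = ((matR K r).map (spec w)).det := by
    have := (RingHom.map_det (spec w : MvPolynomial (Fin r × Fin (r + 1)) K →+* K) (matR K r))
    simpa using this
  rw [h0]
  intro h
  obtain ⟨v, hv, hv0⟩ := Matrix.exists_mulVec_eq_zero_iff.mpr h
  apply hv
  have h1 : v (Fin.last r) = 0 := by
    rw [← spec_mat_last w v, hv0]; rfl
  funext j
  refine Fin.lastCases ?_ (fun i => ?_) j
  · exact h1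
  · have := spec_mat_castSucc w v i
    rw [hv0, h1, mul_zero, sub_zero] at this
    exact this.symm

theorem spec_adj (w : Fin (r + 1) → K) (hw : w (Fin.last r) = 1) (j : Fin (r + 1)) :
    spec w ((matR K r).adjugate j (Fin.last r)) / spec w (matR K r).det = w j := by
  have h0 : spec w (matR K r).det = ((matR K r).map (spec w)).det := by
    have := (RingHom.map_det (spec w : MvPolynomial (Fin r × Fin (r + 1)) K →+* K) (matR K r))
    simpa using this
  have h1 : spec w ((matR K r).adjugate j (Fin.last r)) =
      ((matR K r).map (spec w)).adjugate j (Fin.last r) := by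
    have := (RingHom.map_adjugate (spec w : MvPolynomial (Fin r × Fin (r + 1)) K →+* K) (matR K r))
    have := congrFun (congrFun this j) (Fin.last r)
    simpa using this
  have h2 : ((matR K r).map (spec w)).mulVec w = Pi.single (Fin.last r) 1 := by
    funext i
    refine Fin.lastCases ?_ (fun i => ?_) i
    · rw [spec_mat_last, hw]; simp
    · rw [spec_mat_castSucc, hw, mul_one, sub_self, Pi.single_eq_of_ne]
      exact (Fin.castSucc_lt_last i).ne
  have h3 : ((matR K r).map (spec w)).adjugate.mulVec (((matR K r).map (spec w)).mulVec w) j =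
      ((matR K r).map (spec w)).det * w j := by
    rw [Matrix.mulVec_mulVec, Matrix.adjugate_mul, Matrix.smul_mulVec, Matrix.one_mulVec]
    rfl
  rw [h2, Matrix.mulVec_single_one] at h3
  rw [h1, h0]
  rw [div_eq_iff (by rw [← h0]; exact spec_det_ne_zero w)]
  rw [Matrix.col_apply] at h3
  rw [h3]
  ring

theorem algebraMap_inj : Function.Injective
    (algebraMap (MvPolynomial (Fin r × Fin (r + 1)) K) (GenField K r)) := by
  rw [algebraMap_polyGen, RingHom.coe_comp]
  exact (algebraMap (RatField K r) (GenField K r)).injective.comp (IsFractionRing.injective _ _)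

theorem det_coordMat_ne_zero : (coordMat (genU K r)).det ≠ 0 := by
  rw [coordMat_eq]
  have h := (RingHom.map_det (algebraMap (MvPolynomial (Fin r × Fin (r + 1)) K) (GenField K r))
    (matR K r))
  rw [RingHom.mapMatrix_apply] at h
  rw [← h]
  rw [map_ne_zero_iff _ algebraMap_inj]
  intro h0
  exact spec_det_ne_zero (K := K) (r := r) (fun _ => 0) (by rw [h0, map_zero])

theorem kerDir_eq (j : Fin (r + 1)) : kerDir (genU K r) j =
    algebraMap (MvPolynomial (Fin r × Fin (r + 1)) K) (GenField K r)
      ((matR K r).adjugate j (Fin.last r)) /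
    algebraMap (MvPolynomial (Fin r × Fin (r + 1)) K) (GenField K r) (matR K r).det := by
  have h := (RingHom.map_det (algebraMap (MvPolynomial (Fin r × Fin (r + 1)) K) (GenField K r))
    (matR K r))
  have h1 := (RingHom.map_adjugate
    (algebraMap (MvPolynomial (Fin r × Fin (r + 1)) K) (GenField K r)) (matR K r))
  have h2 := congrFun (congrFun h1 j) (Fin.last r)
  rw [RingHom.mapMatrix_apply, RingHom.mapMatrix_apply, Matrix.map_apply] at h2
  rw [RingHom.mapMatrix_apply] at h
  unfold kerDir
  rw [Matrix.inv_def, Matrix.smul_apply, coordMat_eq, h2, h, Ring.inverse_eq_inv', smul_eq_mul]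
  rw [div_eq_inv_mul]

/-- a polynomial over `K` which does not vanish at some `w` (with last coordinate `1`) does not
vanish at the direction of the generic projection -/
theorem kerDir_generic (P : MvPolynomial (Fin (r + 1)) K) (w : Fin (r + 1) → K)
    (hw : w (Fin.last r) = 1) (hP : eval w P ≠ 0) : aeval (kerDir (genU K r)) P ≠ 0 := by
  intro h0
  have hdL : algebraMap (MvPolynomial (Fin r × Fin (r + 1)) K) (GenField K r) (matR K r).det ≠ 0 := by
    rw [map_ne_zero_iff _ algebraMap_inj]
    intro h
    exact spec_det_ne_zero w (by rw [h, map_zero])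
  obtain ⟨N, H, h1, h2⟩ := frac_spec (L := GenField K r) (spec w)
    (fun j => (matR K r).adjugate j (Fin.last r)) (matR K r).det (spec_det_ne_zero w) hdL P
  have e1 : (fun j => algebraMap (MvPolynomial (Fin r × Fin (r + 1)) K) (GenField K r)
      ((matR K r).adjugate j (Fin.last r)) /
      algebraMap (MvPolynomial (Fin r × Fin (r + 1)) K) (GenField K r) (matR K r).det)
      = kerDir (genU K r) := by
    funext j
    rw [kerDir_eq]
  have e2 : (fun j => spec w ((matR K r).adjugate j (Fin.last r)) / spec w (matR K r).det) = w := by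
    funext j
    exact spec_adj w hw j
  rw [e1, h0, mul_zero] at h1
  rw [e2] at h2
  have h3 : H = 0 := (map_eq_zero_iff _ algebraMap_inj).mp h1
  rw [h3, map_zero] at h2
  exact (mul_ne_zero (pow_ne_zero _ (spec_det_ne_zero w)) hP) h2.symm

theorem generic_genU : Generic K (genU K r) :=
  ⟨det_coordMat_ne_zero, kerDir_generic⟩

end

end Pool.Agent.R834.Zar
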